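import Mathlib

/-!
# Project VM (MP_5ac32f_an): multiplication operators plus operators of Volterra type on `L^p`

Statements of the independent parts.
-/

set_option autoImplicit false

namespace Pool.Agent.K1H27.VM

open MeasureTheory Set Metric Filter Topology
open scoped ENNReal NNReal

/-- `T` has a nontrivial closed hyperinvariant subspace -/
def HasHyp {X : Type} [NormedAddCommGroup X] [NormedSpace ℂ X] (T : X →L[ℂ] X) : Prop :=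
  ∃ V : Submodule ℂ X, IsClosed (V : Set X) ∧ V ≠ ⊥ ∧ V ≠ ⊤ ∧
    ∀ Q : X →L[ℂ] X, Q * T = T * Q → ∀ x ∈ V, Q x ∈ V

/-- integrated local resolvents: for every vector `x`, every point `c` and every `ρ > 0` -/
def LocRes {E : Type} [NormedAddCommGroup E] [NormedSpace ℂ E] (T : E →L[ℂ] E) : Prop :=
  ∀ (x : E) (c : ℂ) (ρ : ℝ), 0 < ρ → ∃ (r C : ℝ) (X : ℕ → E) (W : E) (k : ℂ),
    ρ / 2 < r ∧ r ≤ ρ ∧ (∀ n, T (X n) - c • X n = X (n + 1)) ∧ (∀ n, ‖X n‖ ≤ C * r ^ n) ∧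
    c • W - T W = X 0 + k • x ∧ k ≠ 0

/-- CIRC: the integrals of the Cauchy kernel over circles, all exponents -/
def S_CIRC : Prop := ∀ ρ : ℝ, 0 < ρ →
  (∀ e : ℝ, 0 < e → ∃ C : ℝ≥0, ∀ c w : ℂ, ∫⁻ r in Ioc (ρ / 2) ρ,
      (∫⁻ θ in Ioc (0:ℝ) (2 * Real.pi), ‖circleMap c r θ - w‖ₑ⁻¹) ^ e ≤ C) ∧
  (∀ s : ℝ, 0 < s → s < 2 → ∃ C : ℝ≥0, ∀ c w : ℂ, ∫⁻ r in Ioc (ρ / 2) ρ,
      ∫⁻ θ in Ioc (0:ℝ) (2 * Real.pi), (‖circleMap c r θ - w‖ₑ⁻¹) ^ s ≤ C)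

/-- WGT: the exponential weight -/
def S_WGT : Prop := ∀ (S : Type) [MeasurableSpace S] (ν : Measure S) [IsFiniteMeasure ν]
  (τ : S → ℝ), Measurable τ → ∀ c : ℝ, 0 < c → ∀ t : ℝ,
  ∫⁻ y in {y | τ y < t}, ENNReal.ofReal (Real.exp (c * (ν {u | τ u < τ y}).toReal)) ∂ν ≤
    ENNReal.ofReal (c⁻¹ * Real.exp (c * (ν {u | τ u < t}).toReal))

/-- the norm of Hille and Tamarkin of a kernel (to the power `p`) -/
noncomputable def HT {S : Type} [MeasurableSpace S] (μ : Measure S) (p q : ℝ≥0∞)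
    (k : S → S → ℂ) : ℝ≥0∞ :=
  ∫⁻ x, (∫⁻ y, ‖k x y‖ₑ ^ q.toReal ∂μ) ^ (p.toReal / q.toReal) ∂μ

/-- `V` is the integral operator with kernel `k` -/
def IsInt {S : Type} [MeasurableSpace S] {μ : Measure S} {p : ℝ≥0∞} [Fact (1 ≤ p)]
    (k : S → S → ℂ) (V : Lp ℂ p μ →L[ℂ] Lp ℂ p μ) : Prop :=
  ∀ f : Lp ℂ p μ, ⇑(V f) =ᵐ[μ] fun x => ∫ y, k x y * f y ∂μ

/-- `N` is the multiplication by `φ` -/
def IsMul {S : Type} [MeasurableSpace S] {μ : Measure S} {p : ℝ≥0∞} [Fact (1 ≤ p)]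
    (φ : S → ℂ) (N : Lp ℂ p μ →L[ℂ] Lp ℂ p μ) : Prop :=
  ∀ f : Lp ℂ p μ, ⇑(N f) =ᵐ[μ] fun x => φ x * f x

/-- OP: integral operators of Hille-Tamarkin type and their adjoints -/
def S_OP : Prop := ∀ (S : Type) [MeasurableSpace S] (μ : Measure S) [SigmaFinite μ]
  (p q : ℝ≥0∞) [Fact (1 ≤ p)] [Fact (1 ≤ q)], p.HolderConjugate q → p ≠ ∞ → q ≠ ∞ →
  ∀ k : S → S → ℂ, Measurable (Function.uncurry k) → HT μ p q k ≠ ∞ →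
    (∃ V : Lp ℂ p μ →L[ℂ] Lp ℂ p μ, IsInt k V) ∧
    (∀ (V : Lp ℂ p μ →L[ℂ] Lp ℂ p μ) (V' : Lp ℂ q μ →L[ℂ] Lp ℂ q μ), IsInt k V →
      IsInt (fun x y => k y x) V' → ∀ (f : Lp ℂ p μ) (g : Lp ℂ q μ),
        ∫ x, V' g x * f x ∂μ = ∫ x, g x * V f x ∂μ)

/-- PAIR: the duality of `L^p` and `L^q`, and multiplication operators -/
def S_PAIR : Prop := ∀ (S : Type) [MeasurableSpace S] (μ : Measure S) [SigmaFinite μ]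
  (p q : ℝ≥0∞) [Fact (1 ≤ p)] [Fact (1 ≤ q)], p.HolderConjugate q → p ≠ ∞ → q ≠ ∞ →
  (∃ B : Lp ℂ q μ →L[ℂ] Lp ℂ p μ →L[ℂ] ℂ, (∀ g f, B g f = ∫ x, g x * f x ∂μ) ∧
    (∀ g, B g = 0 → g = 0) ∧ ∀ f, ∃ g, ‖g‖ ≤ 1 ∧ B g f = ((‖f‖ : ℝ) : ℂ)) ∧
  ∀ φ : S → ℂ, Measurable φ → (∃ M : ℝ, ∀ x, ‖φ x‖ ≤ M) →
    ∃ N : Lp ℂ p μ →L[ℂ] Lp ℂ p μ, IsMul φ N

/-- CPT: integral operators of Hille-Tamarkin type are compact -/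
def S_CPT : Prop := ∀ (S : Type) [MeasurableSpace S] (μ : Measure S) [SigmaFinite μ]
  (p q : ℝ≥0∞) [Fact (1 ≤ p)] [Fact (1 ≤ q)], p.HolderConjugate q → p ≠ ∞ → q ≠ ∞ →
  ∀ k : S → S → ℂ, Measurable (Function.uncurry k) → HT μ p q k ≠ ∞ →
  ∀ V : Lp ℂ p μ →L[ℂ] Lp ℂ p μ, IsInt k V → IsCompactOperator V

/-- ONE: one point spectrum -/
def S_ONE : Prop := ∀ (S : Type) [MeasurableSpace S] (μ : Measure S) [SigmaFinite μ]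
  (p : ℝ≥0∞) [Fact (1 ≤ p)] (φ : S → ℂ), Measurable φ → (∃ M : ℝ, ∀ x, ‖φ x‖ ≤ M) →
  ∀ (N K : Lp ℂ p μ →L[ℂ] Lp ℂ p μ) (c : ℂ), IsMul φ N → IsCompactOperator K →
  spectrum ℂ (N + K) = {c} →
  IsCompactOperator (N + K - c • (1 : Lp ℂ p μ →L[ℂ] Lp ℂ p μ))

/-- DUAL: operators with integrated local resolvents for which the transposed operator also has
them -/
def S_DUAL : Prop := ∀ (E F : Type) [NormedAddCommGroup E] [NormedSpace ℂ E] [CompleteSpace E]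
  [NormedAddCommGroup F] [NormedSpace ℂ F] [CompleteSpace F] (B : F →L[ℂ] E →L[ℂ] ℂ)
  (T : E →L[ℂ] E) (T' : F →L[ℂ] F), (∀ g, B g = 0 → g = 0) →
  (∀ f : E, ∃ g : F, ‖g‖ ≤ 1 ∧ B g f = ((‖f‖ : ℝ) : ℂ)) → (∀ g f, B (T' g) f = B g (T f)) →
  LocRes T → LocRes T' →
  (∃ c : ℂ, T = c • (1 : E →L[ℂ] E)) ∨ HasHyp T ∨ ∃ c : ℂ, spectrum ℂ T = {c}

end Pool.Agent.K1H27.VM
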