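import Pool.Agent.K1H27.VM.Loc
import Pool.Agent.K1H28.VM.PAIR
import Pool.Agent.K1H28.VM.OP
import Pool.Agent.K1H26.VM.Circ
import Pool.Agent.K1H65.VM.Wgt
import Pool.Agent.K1H48.VM.DUAL
import Pool.Agent.K1H48.VM.ONE
import Pool.Agent.K1H2.VM.CPT
import Pool.Agent.W577.HI.G1

/-!
# Project VM: the theorem
-/

set_option autoImplicit false

namespace Pool.Agent.K1H27.VM

open MeasureTheory Set Metric Filter Topology
open scoped ENNReal NNReal

variable {S : Type} [MeasurableSpace S] {μ : Measure S}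

/-- Hölder's inequality with a function of norm at most one -/
theorem hold {s s' : ℝ≥0∞} (hss : s.HolderConjugate s') (hs2 : s < 2) {l : S → ℝ}
    (hl : Measurable l) (hl1 : eLpNorm l s' μ ≤ 1) {G : S → ℝ≥0∞} (hG : Measurable G) :
    ∫⁻ y, ‖l y‖ₑ * G y ∂μ ≤ (∫⁻ y, G y ^ s.toReal ∂μ) ^ (1 / s.toReal) := by
  have hst : s ≠ ∞ := (hs2.trans (by simp)).ne
  have hs1 : 1 ≤ s := hss.one_le
  have hs0 : s ≠ 0 := (lt_of_lt_of_le one_pos hs1).ne'
  rcases eq_or_lt_of_le hs1 with h1 | h1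
  · -- s = 1
    have h2 : s' = ∞ := by
      have := hss.inv_add_inv_eq_one
      rw [← h1, inv_one] at this
      have h3 : s'⁻¹ = 0 := by
        have h4 : (1 : ℝ≥0∞) + s'⁻¹ = 1 + 0 := by rw [this, add_zero]
        exact (ENNReal.add_right_inj ENNReal.one_ne_top).1 h4
      exact ENNReal.inv_eq_zero.1 h3
    rw [← h1, ENNReal.toReal_one, div_one, ENNReal.rpow_one]
    simp only [ENNReal.rpow_one]
    rw [h2, eLpNorm_exponent_top] at hl1
    refine lintegral_mono_ae ?_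
    filter_upwards [enorm_ae_le_eLpNormEssSup l μ] with y hy
    calc ‖l y‖ₑ * G y ≤ 1 * G y := by gcongr; exact hy.trans hl1
      _ = G y := one_mul _
  · -- 1 < s
    have hs't : s' ≠ ∞ := by
      intro h2
      have := hss.inv_add_inv_eq_one
      rw [h2, ENNReal.inv_top, add_zero] at this
      rw [ENNReal.inv_eq_one.1 this] at h1
      exact lt_irrefl _ h1
    have hs'0 : s' ≠ 0 := (lt_of_lt_of_le one_pos hss.symm.one_le).ne'
    have hr := ENNReal.HolderConjugate.toReal_of_ne_top (p := s) (q := s') hst hs't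
    have h3 := ENNReal.lintegral_mul_le_Lp_mul_Lq μ hr.symm (f := fun y => ‖l y‖ₑ) (g := G)
      hl.enorm.aemeasurable hG.aemeasurable
    rw [eLpNorm_eq_lintegral_rpow_enorm_toReal hs'0 hs't] at hl1
    calc ∫⁻ y, ‖l y‖ₑ * G y ∂μ ≤ (∫⁻ y, ‖l y‖ₑ ^ s'.toReal ∂μ) ^ (1 / s'.toReal) *
          (∫⁻ y, G y ^ s.toReal ∂μ) ^ (1 / s.toReal) := h3
      _ ≤ 1 * (∫⁻ y, G y ^ s.toReal ∂μ) ^ (1 / s.toReal) := by gcongr
      _ = _ := one_mul _

/-- the kernels -/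
structure Ker (μ : Measure S) (s s' : ℝ≥0∞) (τ : S → ℝ) (k : S → S → ℂ)
    (a b : S → ℝ) (l : S → S → ℝ) : Prop where
  mτ : Measurable τ
  mk' : Measurable (Function.uncurry k)
  ma : Measurable a
  mb : Measurable b
  ml : Measurable (Function.uncurry l)
  hss : s.HolderConjugate s'
  hs2 : s < 2
  supp : ∀ x y, k x y ≠ 0 → τ y < τ x
  l1 : ∀ x, eLpNorm (l x) s' μ ≤ 1
  l2 : ∀ y, eLpNorm (fun x => l x y) s' μ ≤ 1
  le : ∀ x y, ‖k x y‖ ≤ a x * l x y * b y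

/-- the transposed kernel -/
theorem Ker.symm {s s' : ℝ≥0∞} {τ : S → ℝ} {k : S → S → ℂ} {a b : S → ℝ} {l : S → S → ℝ}
    (h : Ker μ s s' τ k a b l) :
    Ker μ s s' (fun x => -τ x) (fun x y => k y x) b a (fun x y => l y x) where
  mτ := h.mτ.neg
  mk' := h.mk'.comp measurable_swap
  ma := h.mb
  mb := h.ma
  ml := h.ml.comp measurable_swap
  hss := h.hss
  hs2 := h.hs2
  supp x y hxy := neg_lt_neg (h.supp y x hxy)
  l1 := h.l2
  l2 := h.l1
  le x y := (h.le y x).trans (le_of_eq (by ring))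

theorem Ker.vol {s s' : ℝ≥0∞} {τ : S → ℝ} {k : S → S → ℂ} {a b : S → ℝ} {l : S → S → ℝ}
    (h : Ker μ s s' τ k a b l) :
    Vol μ τ k (fun x => ‖a x‖₊) (fun x => ‖b x‖₊) s.toReal := by
  have hst : s ≠ ∞ := (h.hs2.trans (by simp)).ne
  have hs1 : 1 ≤ s := h.hss.one_le
  have hs1r : 1 ≤ s.toReal := by
    rw [← ENNReal.toReal_one]
    exact ENNReal.toReal_mono hst hs1
  have hs2r : s.toReal < 2 := by
    have := (ENNReal.toReal_lt_toReal hst (by simp)).2 h.hs2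
    simpa using this
  refine ⟨h.mk', h.mτ, h.ma.nnnorm, h.mb.nnnorm, hs1r, hs2r, fun x F hF => ?_⟩
  have hset : MeasurableSet {y | τ y < τ x} := h.mτ measurableSet_Iio
  set G : S → ℝ≥0∞ := {y | τ y < τ x}.indicator fun y => ‖b y‖ₑ * F y with hG
  have hGm : Measurable G := (h.mb.enorm.mul hF).indicator hset
  have hlx : Measurable (l x) := h.ml.comp (measurable_const.prodMk measurable_id)
  have h1 : ∀ y, ‖k x y‖ₑ * F y ≤ ‖a x‖ₑ * (‖l x y‖ₑ * G y) := by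
    intro y
    by_cases hy : τ y < τ x
    · rw [hG, indicator_of_mem (show y ∈ {y | τ y < τ x} from hy)]
      have h2 : ‖k x y‖ₑ ≤ ‖a x‖ₑ * ‖l x y‖ₑ * ‖b y‖ₑ := by
        rw [← enorm_mul, ← enorm_mul, enorm_le_iff_norm_le]
        exact (h.le x y).trans (le_abs_self _)
      calc ‖k x y‖ₑ * F y ≤ ‖a x‖ₑ * ‖l x y‖ₑ * ‖b y‖ₑ * F y := by gcongr
        _ = _ := by ring
    · have h0 : k x y = 0 := by
        by_contra hcon
        exact hy (h.supp x y hcon)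
      rw [h0, enorm_zero, zero_mul]
      exact zero_le
  calc ∫⁻ y, ‖k x y‖ₑ * F y ∂μ ≤ ∫⁻ y, ‖a x‖ₑ * (‖l x y‖ₑ * G y) ∂μ := lintegral_mono h1
    _ = ‖a x‖ₑ * ∫⁻ y, ‖l x y‖ₑ * G y ∂μ := lintegral_const_mul _ (hlx.enorm.mul hGm)
    _ ≤ ‖a x‖ₑ * (∫⁻ y, G y ^ s.toReal ∂μ) ^ (1 / s.toReal) := by
        gcongr
        exact hold h.hss h.hs2 hlx (h.l1 x) hGm
    _ = _ := by
        have hs0 : 0 < s.toReal := lt_of_lt_of_le one_pos hs1r
        have h3 : ∀ y, G y ^ s.toReal = {y | τ y < τ x}.indicator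
            (fun y => (‖b y‖ₑ * F y) ^ s.toReal) y := by
          intro y
          by_cases hy : y ∈ {y | τ y < τ x}
          · rw [hG, indicator_of_mem hy, indicator_of_mem hy]
          · rw [hG, indicator_of_notMem hy, indicator_of_notMem hy,
              ENNReal.zero_rpow_of_pos hs0]
        simp_rw [h3]
        rw [lintegral_indicator hset]
        rfl

theorem lint_of_memLp {p : ℝ≥0∞} (hp0 : p ≠ 0) (hpt : p ≠ ∞) {E : Type} [NormedAddCommGroup E]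
    {f : S → E} (hf : MemLp f p μ) : ∫⁻ y, ‖f y‖ₑ ^ p.toReal ∂μ ≠ ⊤ := by
  have hP : 0 < p.toReal := ENNReal.toReal_pos hp0 hpt
  have h2 := hf.2
  rw [eLpNorm_eq_lintegral_rpow_enorm_toReal hp0 hpt,
    ENNReal.rpow_lt_top_iff_of_pos (by positivity)] at h2
  exact h2.ne

/-- local resolvents -/
theorem Ker.loc [SigmaFinite μ] {p q s s' α β : ℝ≥0∞} [Fact (1 ≤ p)]
    (hp : p ≠ ∞) (hβ : β.HolderTriple p s) {φ : S → ℂ} (hφ : Measurable φ)
    {τ : S → ℝ} {k : S → S → ℂ} {a b : S → ℝ} {l : S → S → ℝ} (h : Ker μ s s' τ k a b l)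
    (ha : MemLp a p μ) (hb' : MemLp b β μ) {T : Lp ℂ p μ →L[ℂ] Lp ℂ p μ}
    (hT : ∀ g : Lp ℂ p μ, ⇑(T g) =ᵐ[μ] fun x => φ x * g x + ∫ y, k x y * g y ∂μ) :
    LocRes T := by
  have hp1 : 1 ≤ p := Fact.out
  have hp0 : p ≠ 0 := (lt_of_lt_of_le one_pos hp1).ne'
  have hst : s ≠ ∞ := (h.hs2.trans (by simp)).ne
  have hs1 : 1 ≤ s := h.hss.one_le
  have hs0 : s ≠ 0 := (lt_of_lt_of_le one_pos hs1).ne'
  refine locres Pool.Agent.K1H65.VM.t_WGT Pool.Agent.K1H26.VM.t_CIRC h.vol hφ hp hT ?_ ?_ ?_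
  · exact lint_of_memLp hp0 hp ha
  · have h1 : MemLp (fun x => b x * a x) s μ := MemLp.mul' ha hb'
    have h2 := lint_of_memLp hs0 hst h1
    refine ne_top_of_le_ne_top h2 (le_of_eq (lintegral_congr fun y => ?_))
    rw [enorm_mul, mul_comm]
    rfl
  · intro g
    have hg : MemLp (fun y => ‖g y‖) p μ := (Lp.memLp g).norm
    have h1 : MemLp (fun x => b x * ‖g x‖) s μ := MemLp.mul' hg hb'
    have h2 := lint_of_memLp hs0 hst h1
    refine ne_top_of_le_ne_top h2 (le_of_eq (lintegral_congr fun y => ?_))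
    rw [enorm_mul, enorm_norm]
    rfl

/-- the Hille-Tamarkin norm -/
theorem Ker.ht {p q s s' β : ℝ≥0∞} (hpq : p.HolderConjugate q) (hp : p ≠ ∞) (hq : q ≠ ∞)
    (hβ : β.HolderTriple p s) {τ : S → ℝ} {k : S → S → ℂ} {a b : S → ℝ} {l : S → S → ℝ}
    (h : Ker μ s s' τ k a b l) (ha : MemLp a p μ) (hb' : MemLp b β μ) : HT μ p q k ≠ ∞ := by
  have hp1 : 1 ≤ p := hpq.one_le
  have hq1 : 1 ≤ q := hpq.symm.one_le
  have hp0 : p ≠ 0 := (lt_of_lt_of_le one_pos hp1).ne'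
  have hq0 : q ≠ 0 := (lt_of_lt_of_le one_pos hq1).ne'
  have hP : 0 < p.toReal := ENNReal.toReal_pos hp0 hp
  have hQ : 0 < q.toReal := ENNReal.toReal_pos hq0 hq
  have htr : s'.HolderTriple β q := by
    constructor
    have e1 := h.hss.inv_add_inv_eq_one
    have e2 := hpq.inv_add_inv_eq_one
    have e3 := hβ.inv_add_inv_eq_inv
    have hpi : p⁻¹ ≠ ∞ := ENNReal.inv_ne_top.2 hp0
    have e4 : p⁻¹ + (s'⁻¹ + β⁻¹) = p⁻¹ + q⁻¹ := by
      rw [e2, ← e1, ← e3]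
      ring
    exact (ENNReal.add_right_inj hpi).1 e4
  have h1 : ∀ x, ∫⁻ y, ‖k x y‖ₑ ^ q.toReal ∂μ ≤ (‖a x‖ₑ * eLpNorm b β μ) ^ q.toReal := by
    intro x
    have hlx : Measurable (l x) := h.ml.comp (measurable_const.prodMk measurable_id)
    have h2 : eLpNorm (k x) q μ ≤ ‖a x‖ₑ * eLpNorm b β μ := by
      calc eLpNorm (k x) q μ ≤ eLpNorm (fun y => a x * (l x y * b y)) q μ := by
            refine eLpNorm_mono fun y => ?_
            refine (h.le x y).trans ((le_abs_self _).trans (le_of_eq ?_))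
            rw [mul_assoc, Real.norm_eq_abs]
        _ = eLpNorm (a x • fun y => l x y * b y) q μ := rfl
        _ = ‖a x‖ₑ * eLpNorm (fun y => l x y * b y) q μ := by rw [eLpNorm_const_smul]
        _ ≤ ‖a x‖ₑ * (eLpNorm (l x) s' μ * eLpNorm b β μ) := by
            have h5 : eLpNorm (l x • b) q μ ≤ eLpNorm (l x) s' μ * eLpNorm b β μ :=
              eLpNorm_smul_le_mul_eLpNorm h.mb.aestronglyMeasurable hlx.aestronglyMeasurable
            exact mul_le_mul' le_rfl h5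
        _ ≤ ‖a x‖ₑ * (1 * eLpNorm b β μ) := by
            gcongr
            exact h.l1 x
        _ = _ := by rw [one_mul]
    rw [eLpNorm_eq_lintegral_rpow_enorm_toReal hq0 hq] at h2
    calc ∫⁻ y, ‖k x y‖ₑ ^ q.toReal ∂μ =
          ((∫⁻ y, ‖k x y‖ₑ ^ q.toReal ∂μ) ^ (1 / q.toReal)) ^ q.toReal := by
          rw [← ENNReal.rpow_mul, one_div, inv_mul_cancel₀ hQ.ne', ENNReal.rpow_one]
      _ ≤ _ := ENNReal.rpow_le_rpow h2 hQ.le
  unfold HT
  refine ne_top_of_le_ne_top ?_ (lintegral_mono fun x =>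
    ENNReal.rpow_le_rpow (h1 x) (by positivity : 0 ≤ p.toReal / q.toReal))
  have h3 : ∀ x, ((‖a x‖ₑ * eLpNorm b β μ) ^ q.toReal) ^ (p.toReal / q.toReal) =
      ‖a x‖ₑ ^ p.toReal * eLpNorm b β μ ^ p.toReal := by
    intro x
    rw [← ENNReal.rpow_mul, mul_div_cancel₀ _ hQ.ne', ENNReal.mul_rpow_of_nonneg _ _ hP.le]
  simp_rw [h3]
  rw [lintegral_mul_const _ (h.ma.enorm.pow_const _)]
  exact ENNReal.mul_ne_top (lint_of_memLp hp0 hp ha)
    (ENNReal.rpow_ne_top_of_nonneg hP.le hb'.2.ne)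

/-- vectors with small local spectrum at every point of the spectrum -/
theorem small {E : Type} [NormedAddCommGroup E] [NormedSpace ℂ E] [CompleteSpace E]
    {T : E →L[ℂ] E} (hL : LocRes T) {c : ℂ} (hc : c ∈ spectrum ℂ T) {ε : ℝ} (hε : 0 < ε) :
    ∃ (x : E) (C : ℝ), x ≠ 0 ∧ ∀ n : ℕ, ‖((T - c • (1 : E →L[ℂ] E)) ^ n) x‖ ≤ C * ε ^ n := by
  by_cases hinj : ∃ f : E, T f = c • f ∧ f ≠ 0
  · obtain ⟨f, h1, h2⟩ := hinj
    refine ⟨f, ‖f‖, h2, fun n => ?_⟩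
    have h3 : (T - c • (1 : E →L[ℂ] E)) f = 0 := by
      show T f - c • f = 0
      rw [h1, sub_self]
    cases n with
    | zero => simp
    | succ n =>
      rw [pow_succ, ContinuousLinearMap.mul_apply, h3, map_zero, norm_zero]
      positivity
  push Not at hinj
  have hx : ∃ x, ∀ y, c • y - T y ≠ x := by
    by_contra hcon
    push Not at hcon
    apply hc
    rw [spectrum.mem_resolventSet_iff, ContinuousLinearMap.isUnit_iff_bijective]
    have hval : ∀ y, (algebraMap ℂ (E →L[ℂ] E) c - T) y = c • y - T y := by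
      intro y
      rw [Algebra.algebraMap_eq_smul_one]
      rfl
    constructor
    · rw [injective_iff_map_eq_zero]
      intro y hy
      rw [hval, sub_eq_zero] at hy
      exact hinj y hy.symm
    · intro x
      obtain ⟨y, hy⟩ := hcon x
      exact ⟨y, (hval y).trans hy⟩
  obtain ⟨x, hx⟩ := hx
  obtain ⟨r, C, X, W, κ, h1, h2, h3, h4, h5, h6⟩ := hL x c ε hε
  have hX0 : X 0 ≠ 0 := by
    intro h0
    rw [h0, zero_add] at h5
    apply hx (κ⁻¹ • W)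
    rw [map_smul, smul_comm, ← smul_sub, h5, smul_smul, inv_mul_cancel₀ h6, one_smul]
  have hrec : ∀ n : ℕ, ((T - c • (1 : E →L[ℂ] E)) ^ n) (X 0) = X n := by
    intro n
    induction n with
    | zero => simp
    | succ n ih =>
      rw [pow_succ', ContinuousLinearMap.mul_apply, ih]
      exact h3 n
  refine ⟨X 0, C, hX0, fun n => ?_⟩
  have hC : 0 ≤ C := by
    have h7 := h4 0
    rw [pow_zero, mul_one] at h7
    exact (norm_nonneg _).trans h7
  have hr : 0 ≤ r := by linarith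
  rw [hrec]
  refine (h4 n).trans ?_
  gcongr

/-- the theorem -/
theorem main [SigmaFinite μ] {p q s s' α β : ℝ≥0∞} [Fact (1 ≤ p)]
    (hpq : p.HolderConjugate q) (hp : p ≠ ∞) (hq : q ≠ ∞) (hα : α.HolderTriple q s)
    (hβ : β.HolderTriple p s) {φ : S → ℂ} (hφ : Measurable φ) (hφb : ∃ M : ℝ, ∀ x, ‖φ x‖ ≤ M)
    {τ : S → ℝ} {k : S → S → ℂ} {a b : S → ℝ} {l : S → S → ℝ} (h : Ker μ s s' τ k a b l)
    (ha : MemLp a p μ) (ha' : MemLp a α μ) (hb : MemLp b q μ) (hb' : MemLp b β μ) :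
    ∃ T : Lp ℂ p μ →L[ℂ] Lp ℂ p μ,
      (∀ g : Lp ℂ p μ, ⇑(T g) =ᵐ[μ] fun x => φ x * g x + ∫ y, k x y * g y ∂μ) ∧
      ((∃ c : ℂ, T = c • (1 : Lp ℂ p μ →L[ℂ] Lp ℂ p μ)) ∨ HasHyp T) ∧ LocRes T := by
  have : Fact (1 ≤ q) := ⟨hpq.symm.one_le⟩
  have hHT := h.ht hpq hp hq hβ ha hb'
  have hHT' := h.symm.ht hpq.symm hq hp hα hb ha'
  obtain ⟨⟨V, hV⟩, hVV⟩ := Pool.Agent.K1H28.VM.t_OP S μ p q hpq hp hq k h.mk' hHT
  obtain ⟨⟨V', hV'⟩, -⟩ := Pool.Agent.K1H28.VM.t_OP S μ q p hpq.symm hq hp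
    (fun x y => k y x) h.symm.mk' hHT'
  obtain ⟨⟨B, hB, hB0, hBn⟩, hmul⟩ := Pool.Agent.K1H28.VM.t_PAIR S μ p q hpq hp hq
  obtain ⟨N, hN⟩ := hmul φ hφ hφb
  obtain ⟨-, hmul'⟩ := Pool.Agent.K1H28.VM.t_PAIR S μ q p hpq.symm hq hp
  obtain ⟨N', hN'⟩ := hmul' φ hφ hφb
  have hT : ∀ g : Lp ℂ p μ, ⇑((N + V) g) =ᵐ[μ] fun x => φ x * g x + ∫ y, k x y * g y ∂μ := by
    intro g
    filter_upwards [Lp.coeFn_add (N g) (V g), hN g, hV g] with x h1 h2 h3
    show (N g + V g : Lp ℂ p μ) x = _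
    rw [h1, Pi.add_apply, h2, h3]
  have hT' : ∀ g : Lp ℂ q μ, ⇑((N' + V') g) =ᵐ[μ] fun x => φ x * g x + ∫ y, k y x * g y ∂μ := by
    intro g
    filter_upwards [Lp.coeFn_add (N' g) (V' g), hN' g, hV' g] with x h1 h2 h3
    show (N' g + V' g : Lp ℂ q μ) x = _
    rw [h1, Pi.add_apply, h2, h3]
  have hL : LocRes (N + V) := h.loc (α := α) (q := q) hp hβ hφ ha hb' hT
  have hL' : LocRes (N' + V') := h.symm.loc (α := α) (q := q) hq hα hφ hb ha' hT'
  have hBT : ∀ g f, B ((N' + V') g) f = B g ((N + V) f) := by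
    intro g f
    show B (N' g + V' g) f = B g (N f + V f)
    rw [map_add, map_add, _root_.add_apply, hB (V' g) f, hVV V V' hV hV' f g, ← hB g (V f)]
    congr 1
    rw [hB, hB]
    refine integral_congr_ae ?_
    filter_upwards [hN' g, hN f] with x h1 h2
    rw [h1, h2]
    ring
  refine ⟨N + V, hT, ?_, hL⟩
  by_cases hsc : ∃ c : ℂ, N + V = c • (1 : Lp ℂ p μ →L[ℂ] Lp ℂ p μ)
  · exact Or.inl hsc
  right
  rcases _root_.K1H48.VM.t_DUAL (Lp ℂ p μ) (Lp ℂ q μ) B (N + V) (N' + V') hB0 hBn hBT hL hL'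
    with h1 | h1 | ⟨c, hc⟩
  · exact absurd h1 hsc
  · exact h1
  · have hVc : IsCompactOperator V := Pool.Agent.K1H2.VM.t_CPT Pool.Agent.K1H28.VM.t_OP S μ p q
      hpq hp hq k h.mk' hHT V hV
    have h2 := _root_.K1H48.VM.t_ONE S μ p φ hφ hφb N V c hN hVc hc
    have h3 : Pool.Agent.W402.HI.HasHyp (N + V - c • (1 : Lp ℂ p μ →L[ℂ] Lp ℂ p μ)) := by
      refine Pool.Agent.W577.HI.G1.main _ _ h2 ?_
      rintro ⟨c', hc'⟩
      apply hsc
      refine ⟨c' + c, ?_⟩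
      rw [add_smul, ← hc', sub_add_cancel]
    obtain ⟨M, m1, m2, m3, m4⟩ := h3
    refine ⟨M, m1, m2, m3, fun Q hQ => m4 Q ?_⟩
    rw [mul_sub, sub_mul, hQ, smul_one_mul, mul_smul_one]

end Pool.Agent.K1H27.VM
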