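import Pool.Agent.K1H27.VM.Stm
import Pool.Agent.Y180.NK.CoreAbs

/-!
# Project VM: vectors obtained by integrating a local resolvent over a circle
-/

set_option autoImplicit false

namespace Pool.Agent.K1H27.VM

open MeasureTheory Set Metric Filter Topology
open scoped ENNReal NNReal
open Pool.Agent.Y180.NK.CoreAbs

/-- Lebesgue measure on the interval of the angles -/
noncomputable abbrev nu : Measure ℝ := volume.restrict (Ioc (0:ℝ) (2 * Real.pi))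

variable {S : Type} [MeasurableSpace S] {μ : Measure S}

/-- the relation at a good point -/
theorem Y_rel' (ν : Measure ℝ) [IsFiniteMeasure ν] {z : ℝ → ℂ} {φ : S → ℂ} (hz : Measurable z)
    {W : S → ℝ} {C C' : ℝ} {K K' : ℝ × S → ℂ} (c : ℂ) (hK : Dom W C K) (hK' : Dom W C' K')
    (hKK : ∀ p : ℝ × S, K' p = (z p.1 - c) * K p) {s : S} (hs : W s ≤ 0 ∨ E ν z φ s < ⊤) :
    (φ s - c) * Y ν z φ K s = Y ν z φ K' s - ∫ θ, K (θ, s) ∂ν := by
  rcases hs with hs | hs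
  · have h0 : ∀ θ, K (θ, s) = 0 := by
      intro θ
      have h1 := hK.le (θ, s)
      have h2 : C * W s ≤ 0 := mul_nonpos_of_nonneg_of_nonpos hK.nn hs
      exact norm_le_zero_iff.mp (h1.trans h2)
    have h0' : ∀ θ, K' (θ, s) = 0 := fun θ => by rw [hKK, h0, mul_zero]
    simp only [Y, h0, h0', zero_mul, integral_zero, mul_zero, sub_zero]
  · have i1 := int_good ν hz hK hs
    have i2 := int_good ν hz hK' hs
    have hm : Measurable (fun θ => K (θ, s)) :=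
      hK.meas.comp (measurable_id.prodMk measurable_const)
    have i3 : Integrable (fun θ => K (θ, s)) ν :=
      (integrable_const (C * W s)).mono' hm.aestronglyMeasurable
        (Eventually.of_forall (fun θ => hK.le (θ, s)))
    have hne : ∀ᵐ θ ∂ν, z θ - φ s ≠ 0 := by
      have hm2 : Measurable (fun θ => ‖z θ - φ s‖ₑ⁻¹) := (hz.sub measurable_const).enorm.inv
      filter_upwards [ae_lt_top hm2 hs.ne] with θ hθ h0
      rw [h0, enorm_zero, ENNReal.inv_zero] at hθ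
      exact lt_irrefl _ hθ
    unfold Y
    rw [← integral_const_mul, ← integral_sub i2 i3]
    refine integral_congr_ae ?_
    filter_upwards [hne] with θ hθ
    rw [hKK]
    field_simp
    ring

/-- almost every point is good -/
theorem good' {ν : Measure ℝ} [IsFiniteMeasure ν] {z : ℝ → ℂ} {φ : S → ℂ} (hz : Measurable z)
    (hφ : Measurable φ) {W : S → ℝ} (hWm : Measurable W) {P : ℝ} (hP : 0 < P)
    (hWE : ∫⁻ s, (ENNReal.ofReal (W s) * E ν z φ s) ^ P ∂μ ≠ ⊤) :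
    ∀ᵐ s ∂μ, W s ≤ 0 ∨ E ν z φ s < ⊤ := by
  have hm : Measurable (fun s => (ENNReal.ofReal (W s) * E ν z φ s) ^ P) :=
    (hWm.ennreal_ofReal.mul (meas_E ν hz hφ)).pow_const P
  have h1 := ae_lt_top hm hWE
  filter_upwards [h1] with s hs
  by_contra hcon
  push Not at hcon
  obtain ⟨ha, hb⟩ := hcon
  have hb' : E ν z φ s = ⊤ := top_le_iff.mp hb
  rw [hb', ENNReal.mul_top, ENNReal.top_rpow_of_pos hP] at hs
  · exact lt_irrefl _ hs
  · simp only [ne_eq, ENNReal.ofReal_eq_zero, not_le]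
    exact ha

/-- membership in `L^p` -/
theorem lp_of {p : ℝ≥0∞} (hp0 : p ≠ 0) (hpt : p ≠ ∞) {f : S → ℂ} (hf : AEStronglyMeasurable f μ)
    {B : ℝ} (hB : 0 ≤ B) {G : S → ℝ≥0∞} (hfG : ∀ s, ‖f s‖ₑ ≤ G s)
    (h : ∫⁻ s, G s ^ p.toReal ∂μ ≤ ENNReal.ofReal B ^ p.toReal) :
    ∃ hm : MemLp f p μ, ‖hm.toLp f‖ ≤ B := by
  have hP : 0 < p.toReal := ENNReal.toReal_pos hp0 hpt
  have h2 : eLpNorm f p μ ≤ ENNReal.ofReal B := by
    rw [eLpNorm_eq_lintegral_rpow_enorm_toReal hp0 hpt]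
    calc (∫⁻ s, ‖f s‖ₑ ^ p.toReal ∂μ) ^ (1 / p.toReal)
        ≤ (ENNReal.ofReal B ^ p.toReal) ^ (1 / p.toReal) := by
          refine ENNReal.rpow_le_rpow ?_ (by positivity)
          refine le_trans (lintegral_mono fun s => ?_) h
          exact ENNReal.rpow_le_rpow (hfG s) hP.le
      _ = ENNReal.ofReal B := by
          rw [← ENNReal.rpow_mul, mul_one_div_cancel hP.ne', ENNReal.rpow_one]
  have hm : MemLp f p μ := ⟨hf, h2.trans_lt ENNReal.ofReal_lt_top⟩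
  refine ⟨hm, ?_⟩
  rw [Lp.norm_toLp]
  exact ENNReal.toReal_le_of_le_ofReal hB h2

/-- the Cauchy integral is in `L^p` -/
theorem Y_lp {p : ℝ≥0∞} (hp0 : p ≠ 0) (hpt : p ≠ ∞) {ν : Measure ℝ} [IsFiniteMeasure ν]
    {z : ℝ → ℂ} {φ : S → ℂ} (hz : Measurable z) (hφ : Measurable φ) {W : S → ℝ}
    (hWm : Measurable W) {A : ℝ} (hA : 0 ≤ A)
    (hWE : ∫⁻ s, (ENNReal.ofReal (W s) * E ν z φ s) ^ p.toReal ∂μ ≤ ENNReal.ofReal A ^ p.toReal)
    {C : ℝ} {K : ℝ × S → ℂ} (hK : Dom W C K) :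
    ∃ hm : MemLp (Y ν z φ K) p μ, ‖hm.toLp (Y ν z φ K)‖ ≤ C * A := by
  have hP : 0 < p.toReal := ENNReal.toReal_pos hp0 hpt
  refine lp_of hp0 hpt (Y_meas ν hz hφ hK).aestronglyMeasurable (mul_nonneg hK.nn hA)
    (G := fun s => ENNReal.ofReal C * (ENNReal.ofReal (W s) * E ν z φ s)) (fun s => ?_) ?_
  · rw [← mul_assoc, ← ENNReal.ofReal_mul hK.nn]
    exact Y_enorm ν hz hK s
  · have hm : Measurable (fun s => (ENNReal.ofReal (W s) * E ν z φ s) ^ p.toReal) :=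
      (hWm.ennreal_ofReal.mul (meas_E ν hz hφ)).pow_const _
    calc ∫⁻ s, (ENNReal.ofReal C * (ENNReal.ofReal (W s) * E ν z φ s)) ^ p.toReal ∂μ
        = ∫⁻ s, ENNReal.ofReal C ^ p.toReal *
            (ENNReal.ofReal (W s) * E ν z φ s) ^ p.toReal ∂μ := by
          refine lintegral_congr fun s => ?_
          rw [ENNReal.mul_rpow_of_nonneg _ _ hP.le]
      _ = ENNReal.ofReal C ^ p.toReal *
            ∫⁻ s, (ENNReal.ofReal (W s) * E ν z φ s) ^ p.toReal ∂μ := lintegral_const_mul _ hm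
      _ ≤ ENNReal.ofReal C ^ p.toReal * ENNReal.ofReal A ^ p.toReal := by gcongr
      _ = ENNReal.ofReal (C * A) ^ p.toReal := by
          rw [← ENNReal.mul_rpow_of_nonneg _ _ hP.le, ENNReal.ofReal_mul hK.nn]

/-- Fubini for the kernel -/
theorem Y_ker [SigmaFinite μ] {ν : Measure ℝ} [IsFiniteMeasure ν]
    {z : ℝ → ℂ} {φ : S → ℂ} (hz : Measurable z) (hφ : Measurable φ) {W : S → ℝ}
    {C : ℝ} {K : ℝ × S → ℂ} (hK : Dom W C K) (g : S → ℂ) (hg : Measurable g)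
    (hfin : ∫⁻ y, ‖g y‖ₑ * (ENNReal.ofReal (W y) * E ν z φ y) ∂μ ≠ ⊤) :
    ∫ y, g y * Y ν z φ K y ∂μ = ∫ θ, ∫ y, g y * (K (θ, y) * (z θ - φ y)⁻¹) ∂μ ∂ν := by
  have hm : Measurable (fun p : ℝ × S => g p.2 * (K p * (z p.1 - φ p.2)⁻¹)) :=
    (hg.comp measurable_snd).mul (hK.meas.mul (meas_ck hz hφ))
  have hint : Integrable (fun p : ℝ × S => g p.2 * (K p * (z p.1 - φ p.2)⁻¹)) (ν.prod μ) := by
    refine ⟨hm.aestronglyMeasurable, ?_⟩
    rw [hasFiniteIntegral_iff_enorm, lintegral_prod_symm _ hm.enorm.aemeasurable]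
    have hb : ∀ y, ∫⁻ θ, ‖g y * (K (θ, y) * (z θ - φ y)⁻¹)‖ₑ ∂ν ≤
        ENNReal.ofReal C * (‖g y‖ₑ * (ENNReal.ofReal (W y) * E ν z φ y)) := by
      intro y
      have hm3 : Measurable (fun θ => ‖K (θ, y) * (z θ - φ y)⁻¹‖ₑ) :=
        ((hK.meas.comp (measurable_id.prodMk measurable_const)).mul
          (hz.sub measurable_const).inv).enorm
      calc ∫⁻ θ, ‖g y * (K (θ, y) * (z θ - φ y)⁻¹)‖ₑ ∂ν
          = ∫⁻ θ, ‖g y‖ₑ * ‖K (θ, y) * (z θ - φ y)⁻¹‖ₑ ∂ν :=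
            lintegral_congr fun θ => enorm_mul _ _
        _ = ‖g y‖ₑ * ∫⁻ θ, ‖K (θ, y) * (z θ - φ y)⁻¹‖ₑ ∂ν := lintegral_const_mul _ hm3
        _ ≤ ‖g y‖ₑ * (ENNReal.ofReal (C * W y) * E ν z φ y) := by
            gcongr
            exact lint_le ν hz hK y
        _ = _ := by
            rw [ENNReal.ofReal_mul hK.nn]
            ring
    have hmE : Measurable (E ν z φ) := meas_E ν hz hφ
    refine lt_of_le_of_lt (lintegral_mono hb) ?_
    rw [lintegral_const_mul' _ _ ENNReal.ofReal_ne_top]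
    exact ENNReal.mul_lt_top ENNReal.ofReal_lt_top (lt_top_iff_ne_top.2 hfin)
  have h2 := integral_integral_swap (μ := ν) (ν := μ)
    (f := fun θ y => g y * (K (θ, y) * (z θ - φ y)⁻¹)) hint
  rw [h2]
  refine integral_congr_ae (Eventually.of_forall (fun y => ?_))
  simp only [Y]
  rw [integral_const_mul]

section step

variable {p : ℝ≥0∞} [Fact (1 ≤ p)] {φ : S → ℂ} {k : S → S → ℂ}

/-- the data of a local resolvent over a circle -/
structure Data (μ : Measure S) (p : ℝ≥0∞) (φ : S → ℂ) (k : S → S → ℂ) (z : ℝ → ℂ) (f : S → ℂ)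
    (h : ℝ → ℂ) (W : S → ℝ) (P : ℝ × S → ℂ) (A : ℝ) : Prop where
  mφ : Measurable φ
  mker : Measurable (Function.uncurry k)
  mz : Measurable z
  mf : Measurable f
  mh : Measurable h
  h1 : ∀ θ, ‖h θ‖ ≤ 1
  mW : Measurable W
  dom : Dom W 1 P
  nn : 0 ≤ A
  wE : ∫⁻ s, (ENNReal.ofReal (W s) * E nu z φ s) ^ p.toReal ∂μ ≤ ENNReal.ofReal A ^ p.toReal
  wk : ∀ᵐ x ∂μ, ∫⁻ y, ‖k x y‖ₑ * (ENNReal.ofReal (W y) * E nu z φ y) ∂μ ≠ ⊤
  rel : ∀ᵐ θ ∂nu, ∀ x, ∫ y, k x y * (P (θ, y) * (z θ - φ y)⁻¹) ∂μ = P (θ, x) - h θ * f x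

variable {z : ℝ → ℂ} {f : S → ℂ} {h : ℝ → ℂ} {W : S → ℝ} {P : ℝ × S → ℂ} {A : ℝ}

/-- multiplication by a bounded function of the angle -/
theorem dom_mul (hP : Dom W 1 P) {κ : ℝ → ℂ} (hκ : Measurable κ) {c : ℝ} (hc : 0 ≤ c)
    (hκ1 : ∀ θ, ‖κ θ‖ ≤ c) : Dom W c (fun p => κ p.1 * P p) where
  meas := (hκ.comp measurable_fst).mul hP.meas
  nn := hc
  le p := by
    rw [norm_mul]
    refine mul_le_mul (hκ1 _) ?_ (norm_nonneg _) hc
    simpa using hP.le p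

open Classical in
/-- the vector in `L^p` -/
noncomputable def XX (μ : Measure S) (p : ℝ≥0∞) (φ : S → ℂ) (z : ℝ → ℂ) (P : ℝ × S → ℂ)
    (κ : ℝ → ℂ) : Lp ℂ p μ :=
  if hm : MemLp (Y nu z φ (fun q => κ q.1 * P q)) p μ then hm.toLp _ else 0

theorem XX_coe (hp0 : p ≠ 0) (hpt : p ≠ ∞) (D : Data μ p φ k z f h W P A) {κ : ℝ → ℂ}
    (hκ : Measurable κ) {c : ℝ} (hc : 0 ≤ c) (hκ1 : ∀ θ, ‖κ θ‖ ≤ c) :
    XX μ p φ z P κ =ᵐ[μ] Y nu z φ (fun q => κ q.1 * P q) := by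
  obtain ⟨hm, -⟩ := Y_lp (μ := μ) hp0 hpt D.mz D.mφ D.mW D.nn D.wE (dom_mul D.dom hκ hc hκ1)
  unfold XX
  rw [dif_pos hm]
  exact hm.coeFn_toLp

theorem XX_norm (hp0 : p ≠ 0) (hpt : p ≠ ∞) (D : Data μ p φ k z f h W P A) {κ : ℝ → ℂ}
    (hκ : Measurable κ) {c : ℝ} (hc : 0 ≤ c) (hκ1 : ∀ θ, ‖κ θ‖ ≤ c) :
    ‖XX μ p φ z P κ‖ ≤ c * A := by
  obtain ⟨hm, hm2⟩ := Y_lp (μ := μ) hp0 hpt D.mz D.mφ D.mW D.nn D.wE (dom_mul D.dom hκ hc hκ1)
  unfold XX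
  rw [dif_pos hm]
  exact hm2

variable [SigmaFinite μ] {T : Lp ℂ p μ →L[ℂ] Lp ℂ p μ}
  (hT : ∀ g : Lp ℂ p μ, ⇑(T g) =ᵐ[μ] fun x => φ x * g x + ∫ y, k x y * g y ∂μ)
  {F : Lp ℂ p μ} (hF : ⇑F =ᵐ[μ] f)

include hT hF in
/-- one step -/
theorem step (hp0 : p ≠ 0) (hpt : p ≠ ∞) (D : Data μ p φ k z f h W P A) (c : ℂ)
    {κ κ' : ℝ → ℂ} (hκ : Measurable κ) {a a' : ℝ} (ha : 0 ≤ a) (hκ1 : ∀ θ, ‖κ θ‖ ≤ a)
    (hκ' : Measurable κ') (ha' : 0 ≤ a') (hκ1' : ∀ θ, ‖κ' θ‖ ≤ a')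
    (hkk : ∀ θ, κ' θ = (z θ - c) * κ θ) :
    T (XX μ p φ z P κ) - c • XX μ p φ z P κ = XX μ p φ z P κ' - (∫ θ, κ θ * h θ ∂nu) • F := by
  have hP0 : 0 < p.toReal := ENNReal.toReal_pos hp0 hpt
  have dκ := dom_mul D.dom hκ ha hκ1
  have dκ' := dom_mul D.dom hκ' ha' hκ1'
  set X := XX μ p φ z P κ with hX
  set X' := XX μ p φ z P κ' with hX'
  have e1 : ⇑X =ᵐ[μ] Y nu z φ (fun q => κ q.1 * P q) := XX_coe hp0 hpt D hκ ha hκ1
  have e2 : ⇑X' =ᵐ[μ] Y nu z φ (fun q => κ' q.1 * P q) := XX_coe hp0 hpt D hκ' ha' hκ1'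
  have hfin : ∫⁻ s, (ENNReal.ofReal (W s) * E nu z φ s) ^ p.toReal ∂μ ≠ ⊤ :=
    ne_top_of_le_ne_top (ENNReal.rpow_ne_top_of_nonneg hP0.le ENNReal.ofReal_ne_top) D.wE
  have e3 := good' (ν := nu) D.mz D.mφ D.mW hP0 hfin
  -- the kernel part
  have e4 : ∀ᵐ x ∂μ, ∫ y, k x y * X y ∂μ =
      (∫ θ, κ θ * P (θ, x) ∂nu) - (∫ θ, κ θ * h θ ∂nu) * f x := by
    filter_upwards [D.wk] with x hx
    have hkx : Measurable (k x) := D.mker.comp (measurable_const.prodMk measurable_id)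
    have h1 : ∫ y, k x y * X y ∂μ = ∫ y, k x y * Y nu z φ (fun q => κ q.1 * P q) y ∂μ := by
      refine integral_congr_ae ?_
      filter_upwards [e1] with y hy
      rw [hy]
    rw [h1, Y_ker D.mz D.mφ dκ (k x) hkx hx]
    have h2 : ∀ᵐ θ ∂nu, ∫ y, k x y * (κ θ * P (θ, y) * (z θ - φ y)⁻¹) ∂μ =
        κ θ * P (θ, x) - (κ θ * h θ) * f x := by
      filter_upwards [D.rel] with θ hθ
      have h3 : ∀ y, k x y * (κ θ * P (θ, y) * (z θ - φ y)⁻¹) =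
          κ θ * (k x y * (P (θ, y) * (z θ - φ y)⁻¹)) := fun y => by ring
      simp_rw [h3]
      rw [integral_const_mul, hθ x]
      ring
    rw [integral_congr_ae h2, integral_sub, integral_mul_const]
    · have hm : Measurable (fun θ => κ θ * P (θ, x)) :=
        hκ.mul (D.dom.meas.comp (measurable_id.prodMk measurable_const))
      refine (integrable_const (a * W x)).mono' hm.aestronglyMeasurable
        (Eventually.of_forall fun θ => ?_)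
      exact dκ.le (θ, x)
    · refine Integrable.mul_const ?_ _
      refine (integrable_const a).mono' (hκ.mul D.mh).aestronglyMeasurable
        (Eventually.of_forall fun θ => ?_)
      rw [norm_mul]
      calc ‖κ θ‖ * ‖h θ‖ ≤ a * 1 := mul_le_mul (hκ1 θ) (D.h1 θ) (norm_nonneg _) ha
        _ = a := mul_one _
  refine Lp.ext ?_
  filter_upwards [e1, e2, e3, e4, hT X, Lp.coeFn_sub (T X) (c • X), Lp.coeFn_smul c X,
    Lp.coeFn_sub X' ((∫ θ, κ θ * h θ ∂nu) • F), Lp.coeFn_smul (∫ θ, κ θ * h θ ∂nu) F, hF]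
    with s b1 b2 b3 b4 b5 b6 b7 b8 b9 b10
  have b11 := Y_rel' nu D.mz c dκ dκ' (fun q => by rw [hkk, mul_assoc]) b3
  rw [b6, b8, Pi.sub_apply, Pi.sub_apply, b7, b9, Pi.smul_apply, Pi.smul_apply, b5, b4,
    smul_eq_mul, smul_eq_mul, b10, b2, b1]
  linear_combination b11

end step

/-- the vectors obtained by integration over the circle -/
theorem core [SigmaFinite μ] {p : ℝ≥0∞} [Fact (1 ≤ p)] (hp0 : p ≠ 0) (hpt : p ≠ ∞)
    {φ : S → ℂ} {k : S → S → ℂ} {c : ℂ} {r : ℝ} (hr : 0 < r) {f : S → ℂ} {h : ℝ → ℂ}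
    {W : S → ℝ} {P : ℝ × S → ℂ} {A : ℝ} (D : Data μ p φ k (circleMap c r) f h W P A)
    {T : Lp ℂ p μ →L[ℂ] Lp ℂ p μ}
    (hT : ∀ g : Lp ℂ p μ, ⇑(T g) =ᵐ[μ] fun x => φ x * g x + ∫ y, k x y * g y ∂μ)
    {F : Lp ℂ p μ} (hF : ⇑F =ᵐ[μ] f)
    (hzero : ∀ a : ℕ, (∫ θ in (0:ℝ)..(2 * Real.pi), h θ * (circleMap 0 1 θ) ^ (a + 1)) = 0) :
    ∃ (X : ℕ → Lp ℂ p μ) (Z : Lp ℂ p μ),
      (∀ a, T (X a) - c • X a = X (a + 1)) ∧ (∀ a, ‖X a‖ ≤ A * r ^ a) ∧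
      c • Z - T Z = X 0 + (-(1 / (r:ℂ)) * ∫ θ in (0:ℝ)..(2 * Real.pi), h θ) • F := by
  set z : ℝ → ℂ := circleMap c r with hzdef
  set e : ℝ → ℂ := fun θ => circleMap 0 1 θ with hedef
  have he : Measurable e := (continuous_circleMap 0 1).measurable
  have he1 : ∀ θ, ‖e θ‖ = 1 := fun θ => by
    rw [hedef]
    simp
  have hze : ∀ θ, z θ - c = r * e θ := by
    intro θ
    simp [hzdef, hedef, circleMap]
  -- the functions
  set κ : ℕ → ℝ → ℂ := fun a θ => e θ * (r * e θ) ^ a with hkdef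
  have hk : ∀ a, Measurable (κ a) := fun a =>
    he.mul ((measurable_const.mul he).pow_const a)
  have hk1 : ∀ a θ, ‖κ a θ‖ ≤ r ^ a := by
    intro a θ
    simp only [hkdef]
    rw [norm_mul, norm_pow, norm_mul, he1, Complex.norm_real, Real.norm_eq_abs, abs_of_pos hr]
    simp
  have hr0 : (r:ℂ) ≠ 0 := by exact_mod_cast hr.ne'
  have hint : ∀ f : ℝ → ℂ, ∫ θ in (0:ℝ)..(2 * Real.pi), f θ = ∫ θ, f θ ∂nu := fun f =>
    intervalIntegral.integral_of_le Real.two_pi_pos.le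
  -- the vectors
  have hr' : (0:ℝ) ≤ 1 / r := by positivity
  have hkr : ∀ θ : ℝ, ‖(fun _ : ℝ => (1 / r : ℂ)) θ‖ ≤ 1 / r := by
    intro θ
    simp only [norm_div, norm_one, Complex.norm_real, Real.norm_eq_abs, abs_of_pos hr, le_refl]
  refine ⟨fun a => XX μ p φ z P (κ a), - XX μ p φ z P (fun _ => 1 / r), ?_, ?_, ?_⟩
  · intro a
    have h1 := step hT hF hp0 hpt D c (hk a) (by positivity : 0 ≤ r ^ a)
      (hk1 a) (hk (a + 1)) (by positivity : 0 ≤ r ^ (a + 1)) (hk1 (a + 1))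
      (fun θ => by simp only [hkdef]; rw [hze]; ring)
    have h2 : ∫ θ, κ a θ * h θ ∂nu = 0 := by
      have h3 := hzero a
      rw [hint] at h3
      have h4 : ∀ θ, κ a θ * h θ = (r:ℂ) ^ a * (h θ * (circleMap 0 1 θ) ^ (a + 1)) := by
        intro θ
        simp only [hkdef, hedef]
        ring
      simp_rw [h4]
      rw [integral_const_mul, h3, mul_zero]
    rw [h2, zero_smul, sub_zero] at h1
    exact h1
  · intro a
    have h1 := XX_norm hp0 hpt D (hk a) (by positivity : 0 ≤ r ^ a) (hk1 a)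
    calc _ ≤ _ := h1
      _ = _ := by ring
  · have h1 := step hT hF hp0 hpt D c
      (κ := fun _ => (1 / r : ℂ)) (κ' := κ 0) measurable_const hr' hkr
      (hk 0) (by positivity : 0 ≤ r ^ 0) (hk1 0)
      (fun θ => by
        simp only [hkdef]
        rw [hze]
        field_simp)
    have h2 : ∫ θ, (1 / (r:ℂ)) * h θ ∂nu = (1 / (r:ℂ)) * ∫ θ in (0:ℝ)..(2 * Real.pi), h θ := by
      rw [integral_const_mul, hint]
    rw [h2] at h1
    rw [map_neg, smul_neg, neg_sub_neg, h1, neg_mul, neg_smul, sub_eq_add_neg]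

end Pool.Agent.K1H27.VM
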