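import Pool.Agent.K1H27.VM.Sol

/-!
# Project VM: the measurable solution of the local equation
-/

set_option autoImplicit false

namespace Pool.Agent.K1H27.VM

open MeasureTheory Set Metric Filter Topology
open scoped ENNReal NNReal
open Pool.Agent.Y180.NK.CoreAbs (enorm_inv_le meas_ck)

variable {S : Type} [MeasurableSpace S] {μ : Measure S} {τ : S → ℝ} {k : S → S → ℂ}
  {a b : S → ℝ≥0} {s : ℝ} {φ : S → ℂ} {z : ℝ → ℂ} {f : S → ℂ}

/-- the bound of the solution -/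
noncomputable def DD (μ : Measure S) (φ : S → ℂ) (a b : S → ℝ≥0) (s : ℝ) (f : S → ℂ) (w : ℂ) :
    ℝ≥0∞ :=
  MM μ φ b s f w ^ (1 / s) * ENNReal.ofReal (Real.exp (4 * (NN μ φ a b s w).toReal))

theorem sol [SigmaFinite μ] (hWGT : S_WGT) (hV : Vol μ τ k a b s) (hφ : Measurable φ)
    (hz : Measurable z) (hf : Measurable f) :
    ∃ G : ℝ × S → ℂ, Measurable G ∧ ∀ θ, NN μ φ a b s (z θ) ≠ ⊤ → MM μ φ b s f (z θ) ≠ ⊤ →
      (∀ x, ‖G (θ, x)‖ₑ ≤ ‖f x‖ₑ + 2 * (a x * DD μ φ a b s f (z θ))) ∧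
      ∀ x, ∫ y, k x y * (G (θ, y) * (z θ - φ y)⁻¹) ∂μ = G (θ, x) - f x := by
  have hs0 : 0 < s := lt_of_lt_of_le one_pos hV.s1
  set Gd : Set ℝ := {θ | NN μ φ a b s (z θ) ≠ ⊤ ∧ MM μ φ b s f (z θ) ≠ ⊤} with hGd
  have hGdm : MeasurableSet Gd := by
    refine MeasurableSet.inter ?_ ?_
    · exact (((NN_meas hV hφ).comp hz) (measurableSet_singleton ⊤)).compl
    · exact (((MM_meas hV hφ hf).comp hz) (measurableSet_singleton ⊤)).compl
  have hUm := U_meas (μ := μ) (k := k) hV hφ hz hf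
  -- estimates
  have hUx : ∀ n θ, Measurable (U μ φ k z f n θ) := fun n θ =>
    (hUm n).comp (measurable_const.prodMk measurable_id)
  have hest : ∀ θ ∈ Gd, ∀ (n : ℕ) (x : S),
      ∫⁻ y, ‖k x y‖ₑ * (‖U μ φ k z f n θ y‖ₑ * ‖z θ - φ y‖ₑ⁻¹) ∂μ ≤
        a x * DD μ φ a b s f (z θ) * (2⁻¹ : ℝ≥0∞) ^ n := by
    intro θ hθ n x
    refine (est hWGT hV hφ (z θ) (fun n => U μ φ k z f n θ) (fun n => hUx n θ)
      (fun n x => rfl) hθ.1 n x).trans (le_of_eq ?_)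
    unfold DD
    show _ * (MM μ φ b s f (z θ) ^ (1 / s) * _ * _) = _
    ring
  have hsucc : ∀ θ (n : ℕ) (x : S), ‖U μ φ k z f (n + 1) θ x‖ₑ ≤
      ∫⁻ y, ‖k x y‖ₑ * (‖U μ φ k z f n θ y‖ₑ * ‖z θ - φ y‖ₑ⁻¹) ∂μ := by
    intro θ n x
    show ‖∫ y, k x y * (U μ φ k z f n θ y * (z θ - φ y)⁻¹) ∂μ‖ₑ ≤ _
    refine (enorm_integral_le_lintegral_enorm _).trans (lintegral_mono fun u => ?_)
    rw [enorm_mul, enorm_mul]
    gcongr
    exact enorm_inv_le _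
  have hDfin : ∀ θ ∈ Gd, DD μ φ a b s f (z θ) ≠ ⊤ := by
    intro θ hθ
    unfold DD
    exact ENNReal.mul_ne_top (ENNReal.rpow_ne_top_of_nonneg (by positivity) hθ.2)
      ENNReal.ofReal_ne_top
  have hgeo : ∑' n : ℕ, (2⁻¹ : ℝ≥0∞) ^ n = 2 := by
    rw [ENNReal.tsum_geometric]
    have : (1 : ℝ≥0∞) - 2⁻¹ = 2⁻¹ := ENNReal.one_sub_inv_two
    rw [this, inv_inv]
  have hsum1 : ∀ θ ∈ Gd, ∀ x, ∑' n, ‖U μ φ k z f (n + 1) θ x‖ₑ ≤
      2 * (a x * DD μ φ a b s f (z θ)) := by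
    intro θ hθ x
    calc ∑' n, ‖U μ φ k z f (n + 1) θ x‖ₑ ≤
          ∑' n : ℕ, a x * DD μ φ a b s f (z θ) * (2⁻¹ : ℝ≥0∞) ^ n :=
          ENNReal.tsum_le_tsum fun n => (hsucc θ n x).trans (hest θ hθ n x)
      _ = _ := by rw [ENNReal.tsum_mul_left, hgeo]; ring
  have hfin1 : ∀ θ ∈ Gd, ∀ x, 2 * ((a x : ℝ≥0∞) * DD μ φ a b s f (z θ)) ≠ ⊤ := fun θ hθ x =>
    ENNReal.mul_ne_top (by simp) (ENNReal.mul_ne_top ENNReal.coe_ne_top (hDfin θ hθ))
  have hsumm1 : ∀ θ ∈ Gd, ∀ x, Summable fun n => U μ φ k z f (n + 1) θ x := by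
    intro θ hθ x
    refine Summable.of_norm ?_
    have h1 : ∑' n, ‖U μ φ k z f (n + 1) θ x‖ₑ ≠ ⊤ :=
      ne_top_of_le_ne_top (hfin1 θ hθ x) (hsum1 θ hθ x)
    have h2 := ENNReal.summable_toReal h1
    simpa using h2
  have hsumm : ∀ θ ∈ Gd, ∀ x, Summable fun n => U μ φ k z f n θ x := fun θ hθ x =>
    (summable_nat_add_iff 1).1 (hsumm1 θ hθ x)
  -- the solution
  set G : ℝ × S → ℂ := fun p => Gd.indicator (fun θ => ∑' n, U μ φ k z f n θ p.2) p.1 with hG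
  have hGv : ∀ θ ∈ Gd, ∀ x, G (θ, x) = ∑' n, U μ φ k z f n θ x := by
    intro θ hθ x
    rw [hG]
    simp only
    rw [indicator_of_mem hθ]
  have hGm : Measurable G := by
    have h1 : ∀ N : ℕ, Measurable fun p : ℝ × S =>
        Gd.indicator (fun θ => ∑ n ∈ Finset.range N, U μ φ k z f n θ p.2) p.1 := by
      intro N
      have h2 : (fun p : ℝ × S =>
          Gd.indicator (fun θ => ∑ n ∈ Finset.range N, U μ φ k z f n θ p.2) p.1) =
          (Prod.fst ⁻¹' Gd).indicator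
            (fun p : ℝ × S => ∑ n ∈ Finset.range N, U μ φ k z f n p.1 p.2) := by
        funext p
        by_cases hp : p.1 ∈ Gd
        · rw [indicator_of_mem hp, indicator_of_mem (show p ∈ Prod.fst ⁻¹' Gd from hp)]
        · rw [indicator_of_notMem hp, indicator_of_notMem (show p ∉ Prod.fst ⁻¹' Gd from hp)]
      rw [h2]
      exact (Finset.measurable_fun_sum _ fun n _ => hUm n).indicator (measurable_fst hGdm)
    refine measurable_of_tendsto_metrizable h1 ?_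
    rw [tendsto_pi_nhds]
    intro p
    by_cases hp : p.1 ∈ Gd
    · simp only [hG, indicator_of_mem hp]
      exact (hsumm p.1 hp p.2).hasSum.tendsto_sum_nat
    · simp only [hG, indicator_of_notMem hp]
      exact tendsto_const_nhds
  refine ⟨G, hGm, fun θ h1 h2 => ?_⟩
  have hθ : θ ∈ Gd := ⟨h1, h2⟩
  have hsplit : ∀ x, G (θ, x) = f x + ∑' n, U μ φ k z f (n + 1) θ x := by
    intro x
    rw [hGv θ hθ, (hsumm θ hθ x).tsum_eq_zero_add]
    rfl
  refine ⟨fun x => ?_, fun x => ?_⟩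
  · rw [hsplit]
    refine (enorm_add_le _ _).trans ?_
    gcongr
    refine le_trans ?_ (hsum1 θ hθ x)
    have h3 : ∑' n, ‖U μ φ k z f (n + 1) θ x‖ₑ ≠ ⊤ :=
      ne_top_of_le_ne_top (hfin1 θ hθ x) (hsum1 θ hθ x)
    exact enorm_tsum_le_tsum_enorm
  · have h3 : ∀ y, k x y * (G (θ, y) * (z θ - φ y)⁻¹) =
        ∑' n, k x y * (U μ φ k z f n θ y * (z θ - φ y)⁻¹) := by
      intro y
      rw [hGv θ hθ, tsum_mul_left, tsum_mul_right]
    simp_rw [h3]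
    rw [integral_tsum]
    · rw [hsplit, add_sub_cancel_left]
      rfl
    · intro n
      have e1 : Measurable fun y => k x y := hV.meas.comp (measurable_const.prodMk measurable_id)
      exact (e1.mul ((hUx n θ).mul (measurable_const.sub hφ).inv)).aestronglyMeasurable
    · have h4 : ∀ n, ∫⁻ y, ‖k x y * (U μ φ k z f n θ y * (z θ - φ y)⁻¹)‖ₑ ∂μ ≤
          a x * DD μ φ a b s f (z θ) * (2⁻¹ : ℝ≥0∞) ^ n := by
        intro n
        refine le_trans (lintegral_mono fun u => ?_) (hest θ hθ n x)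
        rw [enorm_mul, enorm_mul]
        gcongr
        exact enorm_inv_le _
      refine ne_top_of_le_ne_top (hfin1 θ hθ x) ((ENNReal.tsum_le_tsum h4).trans (le_of_eq ?_))
      rw [ENNReal.tsum_mul_left, hgeo]
      ring

end Pool.Agent.K1H27.VM
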