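import Pool.Agent.K1H27.VM.Core
import Pool.Agent.K1H27.VM.Sol2
import Pool.Agent.Y681.NK.OUTQ

/-!
# Project VM: integrated local resolvents
-/

set_option autoImplicit false

namespace Pool.Agent.K1H27.VM

open MeasureTheory Set Metric Filter Topology
open scoped ENNReal NNReal
open Pool.Agent.Y180.NK.CoreAbs

variable {S : Type} [MeasurableSpace S] {μ : Measure S} {τ : S → ℝ} {k : S → S → ℂ}
  {a b : S → ℝ≥0} {s : ℝ} {φ : S → ℂ}

theorem meas_circ (c : ℂ) : Measurable (fun p : ℝ × ℝ => circleMap c p.1 p.2) := by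
  have : Continuous (fun p : ℝ × ℝ => circleMap c p.1 p.2) := by
    unfold circleMap
    fun_prop
  exact this.measurable

/-- choice of the radius, first kind -/
theorem radA [SFinite μ] (hCIRC : S_CIRC) (hφ : Measurable φ) {w : S → ℝ≥0∞}
    (hw : Measurable w) {e : ℝ} (he : 0 < e) (hfin : ∫⁻ y, w y ^ e ∂μ ≠ ⊤) (c : ℂ) {ρ : ℝ}
    (hρ : 0 < ρ) :
    ∀ᵐ r ∂(volume.restrict (Ioc (ρ / 2) ρ)),
      ∫⁻ y, (w y * E nu (circleMap c r) φ y) ^ e ∂μ ≠ ⊤ := by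
  obtain ⟨C, hC⟩ := (hCIRC ρ hρ).1 e he
  have h1 : Measurable (fun p : (ℝ × S) × ℝ => ‖circleMap c p.1.1 p.2 - φ p.1.2‖ₑ⁻¹) :=
    (((meas_circ c).comp ((measurable_fst.comp measurable_fst).prodMk measurable_snd)).sub
      (hφ.comp (measurable_snd.comp measurable_fst))).enorm.inv
  have h2 : Measurable (fun p : ℝ × S => E nu (circleMap c p.1) φ p.2) :=
    h1.lintegral_prod_right'
  have h3 : Measurable (fun p : ℝ × S => (w p.2 * E nu (circleMap c p.1) φ p.2) ^ e) :=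
    ((hw.comp measurable_snd).mul h2).pow_const e
  have h4 : Measurable (fun r : ℝ => ∫⁻ y, (w y * E nu (circleMap c r) φ y) ^ e ∂μ) :=
    h3.lintegral_prod_right'
  have h5 : ∫⁻ r in Ioc (ρ / 2) ρ, ∫⁻ y, (w y * E nu (circleMap c r) φ y) ^ e ∂μ ≠ ⊤ := by
    rw [lintegral_lintegral_swap h3.aemeasurable]
    have h6 : ∀ y, ∫⁻ r in Ioc (ρ / 2) ρ, (w y * E nu (circleMap c r) φ y) ^ e ≤
        w y ^ e * C := by
      intro y
      have h7 : ∀ r, (w y * E nu (circleMap c r) φ y) ^ e =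
          w y ^ e * (E nu (circleMap c r) φ y) ^ e := fun r =>
        ENNReal.mul_rpow_of_nonneg _ _ he.le
      simp_rw [h7]
      have h8 : Measurable fun r : ℝ => (E nu (circleMap c r) φ y) ^ e :=
        (h2.comp (measurable_id.prodMk measurable_const)).pow_const e
      rw [lintegral_const_mul _ h8]
      gcongr
      exact hC c (φ y)
    refine ne_top_of_le_ne_top ?_ (lintegral_mono h6)
    rw [lintegral_mul_const _ (hw.pow_const e)]
    exact ENNReal.mul_ne_top hfin ENNReal.coe_ne_top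
  filter_upwards [ae_lt_top h4 h5] with r hr
  exact hr.ne

/-- choice of the radius, second kind -/
theorem radB [SFinite μ] (hCIRC : S_CIRC) (hφ : Measurable φ) {w : S → ℝ≥0∞}
    (hw : Measurable w) {e : ℝ} (he : 0 < e) (he2 : e < 2) (hfin : ∫⁻ y, w y ^ e ∂μ ≠ ⊤) (c : ℂ)
    {ρ : ℝ} (hρ : 0 < ρ) :
    ∀ᵐ r ∂(volume.restrict (Ioc (ρ / 2) ρ)),
      ∫⁻ θ, ∫⁻ y, (w y * ‖circleMap c r θ - φ y‖ₑ⁻¹) ^ e ∂μ ∂nu ≠ ⊤ := by
  obtain ⟨C, hC⟩ := (hCIRC ρ hρ).2 e he he2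
  have h1 : Measurable (fun p : (ℝ × ℝ) × S =>
      (w p.2 * ‖circleMap c p.1.1 p.1.2 - φ p.2‖ₑ⁻¹) ^ e) :=
    ((hw.comp measurable_snd).mul (((meas_circ c).comp measurable_fst).sub
      (hφ.comp measurable_snd)).enorm.inv).pow_const e
  have h2 : Measurable (fun p : ℝ × ℝ =>
      ∫⁻ y, (w y * ‖circleMap c p.1 p.2 - φ y‖ₑ⁻¹) ^ e ∂μ) := h1.lintegral_prod_right'
  have h4 : Measurable (fun r : ℝ =>
      ∫⁻ θ, ∫⁻ y, (w y * ‖circleMap c r θ - φ y‖ₑ⁻¹) ^ e ∂μ ∂nu) := h2.lintegral_prod_right'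
  have h5 : ∫⁻ r in Ioc (ρ / 2) ρ, ∫⁻ θ, ∫⁻ y, (w y * ‖circleMap c r θ - φ y‖ₑ⁻¹) ^ e ∂μ ∂nu ≠
      ⊤ := by
    have h6 : ∀ r : ℝ, ∫⁻ θ, ∫⁻ y, (w y * ‖circleMap c r θ - φ y‖ₑ⁻¹) ^ e ∂μ ∂nu =
        ∫⁻ y, w y ^ e * ∫⁻ θ, (‖circleMap c r θ - φ y‖ₑ⁻¹) ^ e ∂nu ∂μ := by
      intro r
      rw [lintegral_lintegral_swap]
      · refine lintegral_congr fun y => ?_
        have h7 : ∀ θ, (w y * ‖circleMap c r θ - φ y‖ₑ⁻¹) ^ e =
            w y ^ e * (‖circleMap c r θ - φ y‖ₑ⁻¹) ^ e := fun θ =>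
          ENNReal.mul_rpow_of_nonneg _ _ he.le
        simp_rw [h7]
        refine lintegral_const_mul _ ?_
        exact (((meas_circ c).comp (measurable_const.prodMk measurable_id)).sub
          measurable_const).enorm.inv.pow_const e
      · exact (h1.comp ((measurable_const.prodMk measurable_fst).prodMk
          measurable_snd)).aemeasurable
    simp_rw [h6]
    have h8 : Measurable (fun p : (ℝ × S) × ℝ =>
        (‖circleMap c p.1.1 p.2 - φ p.1.2‖ₑ⁻¹) ^ e) :=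
      ((((meas_circ c).comp ((measurable_fst.comp measurable_fst).prodMk measurable_snd)).sub
        (hφ.comp (measurable_snd.comp measurable_fst))).enorm.inv).pow_const e
    have h9 : Measurable (fun p : ℝ × S => w p.2 ^ e *
        ∫⁻ θ, (‖circleMap c p.1 θ - φ p.2‖ₑ⁻¹) ^ e ∂nu) :=
      ((hw.comp measurable_snd).pow_const e).mul h8.lintegral_prod_right'
    rw [lintegral_lintegral_swap h9.aemeasurable]
    refine ne_top_of_le_ne_top ?_ (lintegral_mono (g := fun y => w y ^ e * C) fun y => ?_)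
    · rw [lintegral_mul_const _ (hw.pow_const e)]
      exact ENNReal.mul_ne_top hfin ENNReal.coe_ne_top
    · show ∫⁻ r in Ioc (ρ / 2) ρ, w y ^ e * ∫⁻ θ, (‖circleMap c r θ - φ y‖ₑ⁻¹) ^ e ∂nu ≤ _
      have h10 : Measurable fun r : ℝ => ∫⁻ θ, (‖circleMap c r θ - φ y‖ₑ⁻¹) ^ e ∂nu := by
        have h11 : Measurable (fun q : ℝ × ℝ => (‖circleMap c q.1 q.2 - φ y‖ₑ⁻¹) ^ e) :=
          ((meas_circ c).sub measurable_const).enorm.inv.pow_const e
        exact h11.lintegral_prod_right'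
      rw [lintegral_const_mul _ h10]
      exact mul_le_mul' le_rfl (hC c (φ y))
  filter_upwards [ae_lt_top h4 h5] with r hr
  exact hr.ne

/-- the numerical inequality for the weight -/
theorem num_le {s M N : ℝ} (hs : 1 ≤ s) (hM : 0 ≤ M) :
    Real.exp (-(1 + M + 4 * N)) * (M ^ (1 / s) * Real.exp (4 * N)) ≤ 1 := by
  have hs0 : 0 < s := lt_of_lt_of_le one_pos hs
  have h1 : M ^ (1 / s) ≤ Real.exp (1 + M) := by
    rcases le_total M 1 with h | h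
    · exact (Real.rpow_le_one hM h (by positivity)).trans (Real.one_le_exp (by linarith))
    · have h2 : M ^ (1 / s) ≤ M ^ (1 : ℝ) :=
        Real.rpow_le_rpow_of_exponent_le h (by rw [div_le_one hs0]; exact hs)
      rw [Real.rpow_one] at h2
      linarith [Real.add_one_le_exp (1 + M)]
  calc Real.exp (-(1 + M + 4 * N)) * (M ^ (1 / s) * Real.exp (4 * N))
      ≤ Real.exp (-(1 + M + 4 * N)) * (Real.exp (1 + M) * Real.exp (4 * N)) := by gcongr
    _ = Real.exp (-(1 + M + 4 * N) + (1 + M + 4 * N)) := by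
        rw [← Real.exp_add, ← Real.exp_add]
    _ = 1 := by rw [neg_add_cancel, Real.exp_zero]

theorem locres [SigmaFinite μ] (hWGT : S_WGT) (hCIRC : S_CIRC) (hV : Vol μ τ k a b s)
    (hφ : Measurable φ) {p : ℝ≥0∞} [Fact (1 ≤ p)] (hpt : p ≠ ∞) {T : Lp ℂ p μ →L[ℂ] Lp ℂ p μ}
    (hT : ∀ g : Lp ℂ p μ, ⇑(T g) =ᵐ[μ] fun x => φ x * g x + ∫ y, k x y * g y ∂μ)
    (ha : ∫⁻ y, (a y : ℝ≥0∞) ^ p.toReal ∂μ ≠ ⊤)
    (hab : ∫⁻ y, ((a y : ℝ≥0∞) * b y) ^ s ∂μ ≠ ⊤)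
    (hb : ∀ g : Lp ℂ p μ, ∫⁻ y, ((b y : ℝ≥0∞) * ‖g y‖ₑ) ^ s ∂μ ≠ ⊤) : LocRes T := by
  intro F c ρ hρ
  have hp1 : 1 ≤ p := Fact.out
  have hp0 : p ≠ 0 := (lt_of_lt_of_le one_pos hp1).ne'
  have hP : 0 < p.toReal := ENNReal.toReal_pos hp0 hpt
  have hs0 : 0 < s := lt_of_lt_of_le one_pos hV.s1
  set f : S → ℂ := ⇑F with hfdef
  have hf : Measurable f := (Lp.stronglyMeasurable F).measurable
  have hFf : ⇑F =ᵐ[μ] f := ae_eq_refl _
  -- the weight
  set W : S → ℝ := fun y => ‖f y‖ + 2 * a y with hW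
  have hW0 : ∀ y, 0 ≤ W y := fun y => by positivity
  have hWm : Measurable W := hf.norm.add (hV.ma.coe_nnreal_real.const_mul 2)
  have hWe : ∀ y, ENNReal.ofReal (W y) = ‖f y‖ₑ + 2 * a y := by
    intro y
    rw [hW]
    simp only
    rw [ENNReal.ofReal_add (norm_nonneg _) (by positivity), ofReal_norm,
      ENNReal.ofReal_mul (by norm_num), ENNReal.ofReal_coe_nnreal]
    simp
  have hWem : Measurable fun y => ENNReal.ofReal (W y) := hWm.ennreal_ofReal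
  -- the weight is in `L^p`
  have hWp : ∫⁻ y, ENNReal.ofReal (W y) ^ p.toReal ∂μ ≠ ⊤ := by
    have h1 : ∫⁻ y, ‖f y‖ₑ ^ p.toReal ∂μ ≠ ⊤ := by
      have h2 := (Lp.memLp F).2
      rw [eLpNorm_eq_lintegral_rpow_enorm_toReal hp0 hpt,
        ENNReal.rpow_lt_top_iff_of_pos (by positivity)] at h2
      exact h2.ne
    have h2 : ∀ y, ENNReal.ofReal (W y) ^ p.toReal ≤
        (2 : ℝ≥0∞) ^ p.toReal * ‖f y‖ₑ ^ p.toReal +
          (4 : ℝ≥0∞) ^ p.toReal * (a y : ℝ≥0∞) ^ p.toReal := by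
      intro y
      rw [hWe, ← ENNReal.mul_rpow_of_nonneg _ _ hP.le, ← ENNReal.mul_rpow_of_nonneg _ _ hP.le]
      rcases le_total (‖f y‖ₑ) (2 * (a y : ℝ≥0∞)) with h | h
      · refine le_trans (ENNReal.rpow_le_rpow ?_ hP.le) le_add_self
        calc ‖f y‖ₑ + 2 * (a y : ℝ≥0∞) ≤ 2 * a y + 2 * a y := by gcongr
          _ = 4 * a y := by ring
      · refine le_trans (ENNReal.rpow_le_rpow ?_ hP.le) le_self_add
        calc ‖f y‖ₑ + 2 * (a y : ℝ≥0∞) ≤ ‖f y‖ₑ + ‖f y‖ₑ := by gcongr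
          _ = 2 * ‖f y‖ₑ := by ring
    refine ne_top_of_le_ne_top ?_ (lintegral_mono h2)
    rw [lintegral_add_left ((hf.enorm.pow_const _).const_mul _),
      lintegral_const_mul _ (hf.enorm.pow_const _),
      lintegral_const_mul _ (hV.ma.coe_nnreal_ennreal.pow_const _)]
    exact ENNReal.add_ne_top.2 ⟨ENNReal.mul_ne_top (ENNReal.rpow_ne_top_of_nonneg hP.le (by simp))
      h1, ENNReal.mul_ne_top (ENNReal.rpow_ne_top_of_nonneg hP.le (by simp)) ha⟩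
  -- the weight times `b` is in `L^s`
  have hWb : ∫⁻ y, ((b y : ℝ≥0∞) * ENNReal.ofReal (W y)) ^ s ∂μ ≠ ⊤ := by
    have h2 : ∀ y, ((b y : ℝ≥0∞) * ENNReal.ofReal (W y)) ^ s ≤
        (2 : ℝ≥0∞) ^ s * ((b y : ℝ≥0∞) * ‖f y‖ₑ) ^ s +
          (4 : ℝ≥0∞) ^ s * ((a y : ℝ≥0∞) * b y) ^ s := by
      intro y
      rw [hWe, ← ENNReal.mul_rpow_of_nonneg _ _ hs0.le, ← ENNReal.mul_rpow_of_nonneg _ _ hs0.le]
      rcases le_total (‖f y‖ₑ) (2 * (a y : ℝ≥0∞)) with h | h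
      · refine le_trans (ENNReal.rpow_le_rpow ?_ hs0.le) le_add_self
        calc (b y : ℝ≥0∞) * (‖f y‖ₑ + 2 * (a y : ℝ≥0∞)) ≤ b y * (2 * a y + 2 * a y) := by gcongr
          _ = 4 * (a y * b y) := by ring
      · refine le_trans (ENNReal.rpow_le_rpow ?_ hs0.le) le_self_add
        calc (b y : ℝ≥0∞) * (‖f y‖ₑ + 2 * (a y : ℝ≥0∞)) ≤ b y * (‖f y‖ₑ + ‖f y‖ₑ) := by gcongr
          _ = 2 * (b y * ‖f y‖ₑ) := by ring
    refine ne_top_of_le_ne_top ?_ (lintegral_mono h2)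
    have m1 : Measurable fun y => ((b y : ℝ≥0∞) * ‖f y‖ₑ) ^ s :=
      (hV.mb.coe_nnreal_ennreal.mul hf.enorm).pow_const _
    have m2 : Measurable fun y => ((a y : ℝ≥0∞) * b y) ^ s :=
      (hV.ma.coe_nnreal_ennreal.mul hV.mb.coe_nnreal_ennreal).pow_const _
    rw [lintegral_add_left (m1.const_mul _), lintegral_const_mul _ m1, lintegral_const_mul _ m2]
    exact ENNReal.add_ne_top.2 ⟨ENNReal.mul_ne_top (ENNReal.rpow_ne_top_of_nonneg hs0.le (by simp))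
      (hb F), ENNReal.mul_ne_top (ENNReal.rpow_ne_top_of_nonneg hs0.le (by simp)) hab⟩
  -- choice of the radius
  have hbW : Measurable fun y => (b y : ℝ≥0∞) * ENNReal.ofReal (W y) :=
    hV.mb.coe_nnreal_ennreal.mul hWem
  have q1 := radA (μ := μ) hCIRC hφ hWem hP hWp c hρ
  have q2 := radA (μ := μ) hCIRC hφ hbW hs0 hWb c hρ
  have q3 := radB (μ := μ) hCIRC hφ (hV.ma.coe_nnreal_ennreal.mul hV.mb.coe_nnreal_ennreal)
    hs0 hV.s2 hab c hρ
  have q4 := radB (μ := μ) hCIRC hφ (hV.mb.coe_nnreal_ennreal.mul hf.enorm) hs0 hV.s2 (hb F) c hρ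
  have : NeBot (ae (volume.restrict (Ioc (ρ / 2) ρ))) := by
    rw [ae_neBot]
    intro h
    have := Measure.restrict_eq_zero.1 h
    rw [Real.volume_Ioc, ENNReal.ofReal_eq_zero] at this
    linarith
  obtain ⟨r, ⟨⟨⟨r1, r2⟩, r3⟩, r4⟩, hr⟩ :=
    ((((q1.and q2).and q3).and q4).and (ae_restrict_mem measurableSet_Ioc)).exists
  have hr0 : 0 < r := by linarith [hr.1]
  set z : ℝ → ℂ := circleMap c r with hzdef
  have hz : Measurable z := (continuous_circleMap c r).measurable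
  obtain ⟨G, hGm, hG⟩ := sol (μ := μ) hWGT hV hφ hz hf
  -- the weight on the circle
  set m : ℝ → ℝ≥0∞ := fun θ => 1 + MM μ φ b s f (z θ) + 4 * NN μ φ a b s (z θ) with hm
  have mMM : Measurable fun θ => MM μ φ b s f (z θ) := (MM_meas hV hφ hf).comp hz
  have mNN : Measurable fun θ => NN μ φ a b s (z θ) := (NN_meas hV hφ).comp hz
  have hmm : Measurable m := (measurable_const.add mMM).add (mNN.const_mul 4)
  have r4' : ∫⁻ θ, MM μ φ b s f (z θ) ∂nu ≠ ⊤ := by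
    have e : ∀ θ, MM μ φ b s f (z θ) =
        ∫⁻ y, ((b y : ℝ≥0∞) * ‖f y‖ₑ * ‖circleMap c r θ - φ y‖ₑ⁻¹) ^ s ∂μ := by
      intro θ
      unfold MM
      refine lintegral_congr fun y => ?_
      rw [mul_assoc]
    simp_rw [e]
    exact r4
  have r3' : ∫⁻ θ, NN μ φ a b s (z θ) ∂nu ≠ ⊤ := r3
  have hmfin : ∫⁻ θ in Ioc (0:ℝ) (2 * Real.pi), m θ ≠ ⊤ := by
    have e1 : ∫⁻ θ, m θ ∂nu = (∫⁻ _θ, 1 ∂nu + ∫⁻ θ, MM μ φ b s f (z θ) ∂nu) +
        4 * ∫⁻ θ, NN μ φ a b s (z θ) ∂nu := by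
      rw [← lintegral_const_mul _ mNN, ← lintegral_add_left measurable_const,
        ← lintegral_add_left (f := fun θ => 1 + MM μ φ b s f (z θ)) (measurable_const.add mMM)]
    show ∫⁻ θ, m θ ∂nu ≠ ⊤
    rw [e1, lintegral_const]
    refine ENNReal.add_ne_top.2 ⟨ENNReal.add_ne_top.2 ⟨?_, r4'⟩, ENNReal.mul_ne_top (by simp) r3'⟩
    exact ENNReal.mul_ne_top (by simp) (measure_ne_top _ _)
  obtain ⟨B, hB⟩ : ∃ B : ℝ≥0, (B : ℝ≥0∞) = _ := ⟨_, ENNReal.coe_toNNReal hmfin⟩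
  obtain ⟨δ, hδ0, hδ⟩ := Pool.Agent.Y681.NK.OUTQ.main B
  obtain ⟨h, hh, hle, hlow, hmom⟩ := hδ m hmm hB.ge
  set Gd : Set ℝ := {θ | m θ ≠ ⊤ ∧ ‖h θ‖ ≤ Real.exp (-(m θ).toReal)} with hGd
  have hGdm : MeasurableSet Gd := by
    refine MeasurableSet.inter ?_ ?_
    · exact (hmm (measurableSet_singleton ⊤)).compl
    · exact measurableSet_le hh.norm (Real.measurable_exp.comp hmm.ennreal_toReal.neg)
  have hGdae : ∀ᵐ θ ∂nu, θ ∈ Gd := hle
  set h' : ℝ → ℂ := Gd.indicator h with hh'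
  have hh'm : Measurable h' := hh.indicator hGdm
  -- finiteness at good points
  have hfinθ : ∀ θ ∈ Gd, MM μ φ b s f (z θ) ≠ ⊤ ∧ NN μ φ a b s (z θ) ≠ ⊤ := by
    intro θ hθ
    have h1 := hθ.1
    simp only [hm] at h1
    rw [ENNReal.add_ne_top, ENNReal.add_ne_top] at h1
    obtain ⟨⟨-, h2⟩, h3⟩ := h1
    refine ⟨h2, fun h4 => h3 ?_⟩
    rw [h4]
    exact ENNReal.mul_top (by simp)
  have hmr : ∀ θ ∈ Gd, (m θ).toReal =
      1 + (MM μ φ b s f (z θ)).toReal + 4 * (NN μ φ a b s (z θ)).toReal := by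
    intro θ hθ
    obtain ⟨h2, h3⟩ := hfinθ θ hθ
    simp only [hm]
    rw [ENNReal.toReal_add (ENNReal.add_ne_top.2 ⟨by simp, h2⟩)
      (ENNReal.mul_ne_top (by simp) h3), ENNReal.toReal_add (by simp) h2, ENNReal.toReal_mul]
    simp
  have hh1 : ∀ θ, ‖h' θ‖ ≤ 1 := by
    intro θ
    by_cases hθ : θ ∈ Gd
    · rw [hh', indicator_of_mem hθ]
      refine hθ.2.trans ?_
      rw [Real.exp_le_one_iff]
      simp
    · rw [hh', indicator_of_notMem hθ]; simp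
  set P : ℝ × S → ℂ := fun q => h' q.1 * G q with hPdef
  have hdom : Dom W 1 P := by
    refine ⟨(hh'm.comp measurable_fst).mul hGm, zero_le_one, fun q => ?_⟩
    rw [one_mul]
    obtain ⟨θ, y⟩ := q
    simp only [hPdef]
    by_cases hθ : θ ∈ Gd
    · obtain ⟨h2, h3⟩ := hfinθ θ hθ
      obtain ⟨g1, -⟩ := hG θ h3 h2
      have g2 := g1 y
      -- the bound in real numbers
      set M1 := (MM μ φ b s f (z θ)).toReal with hM1
      set N1 := (NN μ φ a b s (z θ)).toReal with hN1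
      have hM10 : 0 ≤ M1 := ENNReal.toReal_nonneg
      have hexpr : 0 ≤ M1 ^ (1 / s) := Real.rpow_nonneg hM10 _
      have hDD : DD μ φ a b s f (z θ) = ENNReal.ofReal (M1 ^ (1 / s) * Real.exp (4 * N1)) := by
        unfold DD
        rw [ENNReal.ofReal_mul hexpr, hM1,
          ← ENNReal.ofReal_rpow_of_nonneg ENNReal.toReal_nonneg (by positivity),
          ENNReal.ofReal_toReal h2]
      have g3 : ‖G (θ, y)‖ ≤ ‖f y‖ + 2 * (a y * (M1 ^ (1 / s) * Real.exp (4 * N1))) := by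
        set D0 : ℝ := M1 ^ (1 / s) * Real.exp (4 * N1) with hD0
        have hD00 : 0 ≤ D0 := mul_nonneg hexpr (Real.exp_pos _).le
        have g4 : ‖G (θ, y)‖ₑ ≤ ENNReal.ofReal (‖f y‖ + 2 * (a y * D0)) := by
          refine g2.trans (le_of_eq ?_)
          have e1 : ENNReal.ofReal (2 * ((a y : ℝ) * D0)) =
              2 * ((a y : ℝ≥0∞) * ENNReal.ofReal D0) := by
            rw [ENNReal.ofReal_mul (by norm_num), ENNReal.ofReal_mul (by positivity),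
              ENNReal.ofReal_coe_nnreal]
            simp
          rw [hDD, ENNReal.ofReal_add (norm_nonneg _) (by positivity), ofReal_norm, e1]
        rw [← ofReal_norm] at g4
        exact (ENNReal.ofReal_le_ofReal_iff (by positivity)).1 g4
      have g5 : ‖h' θ‖ ≤ Real.exp (-(1 + M1 + 4 * N1)) := by
        rw [hh', indicator_of_mem hθ, ← hmr θ hθ]
        exact hθ.2
      rw [norm_mul]
      have g6 := num_le (s := s) (M := M1) (N := N1) hV.s1 hM10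
      calc ‖h' θ‖ * ‖G (θ, y)‖
          ≤ ‖h' θ‖ * (‖f y‖ + 2 * (a y * (M1 ^ (1 / s) * Real.exp (4 * N1)))) := by gcongr
        _ = ‖h' θ‖ * ‖f y‖ + 2 * (a y * (‖h' θ‖ * (M1 ^ (1 / s) * Real.exp (4 * N1)))) := by
            ring
        _ ≤ 1 * ‖f y‖ + 2 * (a y * 1) := by
            have g7 : ‖h' θ‖ * (M1 ^ (1 / s) * Real.exp (4 * N1)) ≤ 1 :=
              (mul_le_mul_of_nonneg_right g5 (by positivity)).trans g6
            gcongr
            exact hh1 θ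
        _ = W y := by rw [hW]; ring
    · rw [hh', indicator_of_notMem hθ, zero_mul, norm_zero]
      exact hW0 y
  have hrel : ∀ᵐ θ ∂nu, ∀ x, ∫ y, k x y * (P (θ, y) * (z θ - φ y)⁻¹) ∂μ =
      P (θ, x) - h' θ * f x := by
    filter_upwards [hGdae] with θ hθ x
    obtain ⟨h2, h3⟩ := hfinθ θ hθ
    obtain ⟨-, g1⟩ := hG θ h3 h2
    have e : ∀ y, k x y * (P (θ, y) * (z θ - φ y)⁻¹) =
        h' θ * (k x y * (G (θ, y) * (z θ - φ y)⁻¹)) := by
      intro y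
      simp only [hPdef]
      ring
    simp_rw [e]
    rw [integral_const_mul, g1 x]
    simp only [hPdef]
    ring
  -- the constant
  set I : ℝ≥0∞ := ∫⁻ y, (ENNReal.ofReal (W y) * E nu z φ y) ^ p.toReal ∂μ with hI
  set A : ℝ := (I ^ (1 / p.toReal)).toReal with hA
  have hA0 : 0 ≤ A := ENNReal.toReal_nonneg
  have hAI : I ≤ ENNReal.ofReal A ^ p.toReal := by
    rw [hA, ENNReal.ofReal_toReal (ENNReal.rpow_ne_top_of_nonneg (by positivity) r1),
      ← ENNReal.rpow_mul, one_div, inv_mul_cancel₀ hP.ne', ENNReal.rpow_one]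
  have hwk : ∀ᵐ x ∂μ, ∫⁻ y, ‖k x y‖ₑ * (ENNReal.ofReal (W y) * E nu z φ y) ∂μ ≠ ⊤ := by
    refine Eventually.of_forall fun x => ?_
    refine ne_top_of_le_ne_top ?_ (hV.bd x (fun y => ENNReal.ofReal (W y) * E nu z φ y)
      (hWem.mul (meas_E nu hz hφ)))
    refine ENNReal.mul_ne_top ENNReal.coe_ne_top (ENNReal.rpow_ne_top_of_nonneg (by positivity) ?_)
    refine ne_top_of_le_ne_top r2 ?_
    refine (setLIntegral_le_lintegral _ _).trans (lintegral_mono fun y => ?_)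
    rw [mul_assoc]
  have D : Data μ p φ k z f h' W P A :=
    ⟨hφ, hV.meas, hz, hf, hh'm, hh1, hWm, hdom, hA0, hAI, hwk, hrel⟩
  have hpi : (0:ℝ) ≤ 2 * Real.pi := by positivity
  have hint : ∀ F : ℝ → ℂ → ℂ, (∫ θ in (0:ℝ)..(2 * Real.pi), F θ (h' θ)) =
      ∫ θ in (0:ℝ)..(2 * Real.pi), F θ (h θ) := by
    intro F
    rw [intervalIntegral.integral_of_le hpi, intervalIntegral.integral_of_le hpi]
    refine integral_congr_ae ?_
    filter_upwards [hGdae] with θ hθ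
    rw [hh', indicator_of_mem hθ]
  have hmom' : ∀ a : ℕ,
      (∫ θ in (0:ℝ)..(2 * Real.pi), h' θ * (circleMap 0 1 θ) ^ (a + 1)) = 0 := by
    intro a
    rw [hint (fun θ w => w * (circleMap 0 1 θ) ^ (a + 1))]
    exact hmom a
  obtain ⟨X, Z, x1, x2, x3⟩ := core hp0 hpt hr0 D hT hFf hmom'
  refine ⟨r, A, X, Z, _, hr.1, hr.2, x1, x2, x3, ?_⟩
  have hne : (∫ θ in (0:ℝ)..(2 * Real.pi), h' θ) ≠ 0 := by
    rw [hint (fun θ w => w)]
    intro h0
    rw [h0, norm_zero] at hlow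
    linarith
  have hr' : (r : ℂ) ≠ 0 := by exact_mod_cast hr0.ne'
  exact mul_ne_zero (neg_ne_zero.2 (one_div_ne_zero hr')) hne

end Pool.Agent.K1H27.VM
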