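import Pool.Agent.K1H27.VM.Stm
import Pool.Agent.Y180.NK.CoreAbs

/-!
# Project VM: solution of the local equation by a Neumann series
-/

set_option autoImplicit false

namespace Pool.Agent.K1H27.VM

open MeasureTheory Set Metric Filter Topology
open scoped ENNReal NNReal
open Pool.Agent.Y180.NK.CoreAbs (enorm_inv_le meas_ck)

variable {S : Type} [MeasurableSpace S]

/-- `k` is a kernel of Volterra type with respect to `τ`, dominated with the exponent `s` -/
structure Vol (μ : Measure S) (τ : S → ℝ) (k : S → S → ℂ) (a b : S → ℝ≥0) (s : ℝ) : Prop where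
  meas : Measurable (Function.uncurry k)
  mτ : Measurable τ
  ma : Measurable a
  mb : Measurable b
  s1 : 1 ≤ s
  s2 : s < 2
  bd : ∀ x (F : S → ℝ≥0∞), Measurable F → ∫⁻ y, ‖k x y‖ₑ * F y ∂μ ≤
    a x * (∫⁻ y in {y | τ y < τ x}, (b y * F y) ^ s ∂μ) ^ (1 / s)

/-- the iterates -/
noncomputable def U (μ : Measure S) (φ : S → ℂ) (k : S → S → ℂ) (z : ℝ → ℂ) (f : S → ℂ) :
    ℕ → ℝ → S → ℂ
  | 0, _, x => f x
  | n + 1, θ, x => ∫ y, k x y * (U μ φ k z f n θ y * (z θ - φ y)⁻¹) ∂μ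

/-- the potential of `(a b)^s μ` -/
noncomputable def NN (μ : Measure S) (φ : S → ℂ) (a b : S → ℝ≥0) (s : ℝ) (w : ℂ) : ℝ≥0∞ :=
  ∫⁻ y, (a y * b y * ‖w - φ y‖ₑ⁻¹) ^ s ∂μ

/-- the potential of `(b |f|)^s μ` -/
noncomputable def MM (μ : Measure S) (φ : S → ℂ) (b : S → ℝ≥0) (s : ℝ) (f : S → ℂ) (w : ℂ) :
    ℝ≥0∞ :=
  ∫⁻ y, (b y * (‖f y‖ₑ * ‖w - φ y‖ₑ⁻¹)) ^ s ∂μ

variable {μ : Measure S} {τ : S → ℝ} {k : S → S → ℂ} {a b : S → ℝ≥0} {s : ℝ} {φ : S → ℂ}
  {z : ℝ → ℂ} {f : S → ℂ}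

theorem U_meas [SigmaFinite μ] (hV : Vol μ τ k a b s) (hφ : Measurable φ) (hz : Measurable z)
    (hf : Measurable f) (n : ℕ) :
    Measurable (fun p : ℝ × S => U μ φ k z f n p.1 p.2) := by
  induction n with
  | zero => exact hf.comp measurable_snd
  | succ n ih =>
    have h1 : Measurable (fun p : (ℝ × S) × S =>
        k p.1.2 p.2 * (U μ φ k z f n p.1.1 p.2 * (z p.1.1 - φ p.2)⁻¹)) := by
      have e1 : Measurable (fun p : (ℝ × S) × S => k p.1.2 p.2) :=
        hV.meas.comp ((measurable_snd.comp measurable_fst).prodMk measurable_snd)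
      have e2 : Measurable (fun p : (ℝ × S) × S => U μ φ k z f n p.1.1 p.2) :=
        ih.comp ((measurable_fst.comp measurable_fst).prodMk measurable_snd)
      have e3 : Measurable (fun p : (ℝ × S) × S => (z p.1.1 - φ p.2)⁻¹) :=
        (meas_ck hz hφ).comp ((measurable_fst.comp measurable_fst).prodMk measurable_snd)
      exact e1.mul (e2.mul e3)
    exact (StronglyMeasurable.integral_prod_right' (f := fun p : (ℝ × S) × S =>
        k p.1.2 p.2 * (U μ φ k z f n p.1.1 p.2 * (z p.1.1 - φ p.2)⁻¹))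
        h1.stronglyMeasurable).measurable

theorem NN_meas [SFinite μ] (hV : Vol μ τ k a b s) (hφ : Measurable φ) :
    Measurable (NN μ φ a b s) := by
  unfold NN
  have h : Measurable (fun p : ℂ × S => ((a p.2 : ℝ≥0∞) * b p.2 * ‖p.1 - φ p.2‖ₑ⁻¹) ^ s) :=
    ((((hV.ma.comp measurable_snd).coe_nnreal_ennreal).mul
      ((hV.mb.comp measurable_snd).coe_nnreal_ennreal)).mul
      (measurable_fst.sub (hφ.comp measurable_snd)).enorm.inv).pow_const s
  exact h.lintegral_prod_right'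

theorem MM_meas [SFinite μ] (hV : Vol μ τ k a b s) (hφ : Measurable φ) (hf : Measurable f) :
    Measurable (MM μ φ b s f) := by
  unfold MM
  have h : Measurable (fun p : ℂ × S => ((b p.2 : ℝ≥0∞) * (‖f p.2‖ₑ * ‖p.1 - φ p.2‖ₑ⁻¹)) ^ s) :=
    (((hV.mb.comp measurable_snd).coe_nnreal_ennreal).mul
      ((hf.comp measurable_snd).enorm.mul
      (measurable_fst.sub (hφ.comp measurable_snd)).enorm.inv)).pow_const s
  exact h.lintegral_prod_right'

/-- the numerical constant -/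
theorem const_le (h1 : 1 ≤ s) (h2 : s < 2) : ((4 * s)⁻¹ : ℝ) ≤ (1 / 2) ^ s := by
  have e1 : ((1:ℝ) / 2) ^ (2:ℝ) ≤ (1 / 2) ^ s :=
    Real.rpow_le_rpow_of_exponent_ge (by norm_num) (by norm_num) h2.le
  have e2 : ((1:ℝ) / 2) ^ (2:ℝ) = 1 / 4 := by
    rw [show (2:ℝ) = ((2:ℕ):ℝ) by norm_num, Real.rpow_natCast]
    norm_num
  rw [e2] at e1
  refine le_trans ?_ e1
  rw [inv_eq_one_div]
  apply one_div_le_one_div_of_le <;> linarith

/-- the main estimate for one value of the parameter -/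
theorem est (hWGT : S_WGT) (hV : Vol μ τ k a b s) (hφ : Measurable φ) (w : ℂ) (g : ℕ → S → ℂ)
    (hg : ∀ n, Measurable (g n)) (hgs : ∀ n x, g (n + 1) x =
      ∫ y, k x y * (g n y * (w - φ y)⁻¹) ∂μ)
    (hN : NN μ φ a b s w ≠ ⊤) (n : ℕ) (x : S) :
    ∫⁻ y, ‖k x y‖ₑ * (‖g n y‖ₑ * ‖w - φ y‖ₑ⁻¹) ∂μ ≤
      a x * (MM μ φ b s (g 0) w ^ (1 / s) * (2⁻¹ : ℝ≥0∞) ^ n *
        ENNReal.ofReal (Real.exp (4 * (NN μ φ a b s w).toReal))) := by
  have hs0 : 0 < s := lt_of_lt_of_le one_pos hV.s1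
  set d : S → ℝ≥0∞ := fun y => ((a y : ℝ≥0∞) * b y * ‖w - φ y‖ₑ⁻¹) ^ s with hd
  have hdm : Measurable d := ((hV.ma.coe_nnreal_ennreal.mul hV.mb.coe_nnreal_ennreal).mul
    ((measurable_const.sub hφ).enorm.inv)).pow_const s
  set ν : Measure S := μ.withDensity d with hν
  have hνu : ν univ = NN μ φ a b s w := by
    rw [hν, withDensity_apply _ MeasurableSet.univ, Measure.restrict_univ]
    rfl
  have : IsFiniteMeasure ν := ⟨by rw [hνu]; exact lt_top_iff_ne_top.2 hN⟩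
  set Fr : S → ℝ := fun y => (ν {u | τ u < τ y}).toReal with hFr
  have hFrm : Measurable Fr := by
    have h1 : Monotone fun t : ℝ => (ν {u | τ u < t}).toReal := by
      intro t t' htt
      refine ENNReal.toReal_mono (measure_ne_top _ _) (measure_mono fun u hu => ?_)
      exact lt_of_lt_of_le hu htt
    exact h1.measurable.comp hV.mτ
  have hγm : Measurable fun y => ‖w - φ y‖ₑ⁻¹ := (measurable_const.sub hφ).enorm.inv
  set M := MM μ φ b s (g 0) w ^ (1 / s) with hM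
  -- the sharp form
  have key : ∀ n x, ∫⁻ y, ‖k x y‖ₑ * (‖g n y‖ₑ * ‖w - φ y‖ₑ⁻¹) ∂μ ≤
      a x * (M * (2⁻¹ : ℝ≥0∞) ^ n * ENNReal.ofReal (Real.exp (4 * Fr x))) := by
    intro n
    induction n with
    | zero =>
      intro x
      refine (hV.bd x (fun y => ‖g 0 y‖ₑ * ‖w - φ y‖ₑ⁻¹) ((hg 0).enorm.mul hγm)).trans ?_
      gcongr
      rw [pow_zero, mul_one]
      have h1 : (∫⁻ y in {y | τ y < τ x}, ((b y : ℝ≥0∞) * (‖g 0 y‖ₑ * ‖w - φ y‖ₑ⁻¹)) ^ s ∂μ) ^
          (1 / s) ≤ M := by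
        rw [hM]
        refine ENNReal.rpow_le_rpow ?_ (by positivity)
        exact setLIntegral_le_lintegral _ _
      have h2 : (1 : ℝ≥0∞) ≤ ENNReal.ofReal (Real.exp (4 * Fr x)) := by
        rw [← ENNReal.ofReal_one]
        refine ENNReal.ofReal_le_ofReal (Real.one_le_exp ?_)
        have : 0 ≤ Fr x := ENNReal.toReal_nonneg
        positivity
      calc _ ≤ M := h1
        _ = M * 1 := (mul_one _).symm
        _ ≤ _ := by gcongr
    | succ n ih =>
      intro x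
      refine (hV.bd x (fun y => ‖g (n + 1) y‖ₑ * ‖w - φ y‖ₑ⁻¹)
        ((hg (n + 1)).enorm.mul hγm)).trans ?_
      gcongr
      -- pointwise bound
      have hpt : ∀ y, ‖g (n + 1) y‖ₑ ≤
          a y * (M * (2⁻¹ : ℝ≥0∞) ^ n * ENNReal.ofReal (Real.exp (4 * Fr y))) := by
        intro y
        refine le_trans ?_ (ih y)
        rw [hgs]
        refine (enorm_integral_le_lintegral_enorm _).trans (lintegral_mono fun u => ?_)
        rw [enorm_mul, enorm_mul]
        gcongr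
        exact enorm_inv_le _
      have hpt2 : ∀ y, ((b y : ℝ≥0∞) * (‖g (n + 1) y‖ₑ * ‖w - φ y‖ₑ⁻¹)) ^ s ≤
          (M * (2⁻¹ : ℝ≥0∞) ^ n) ^ s *
            (d y * ENNReal.ofReal (Real.exp (4 * s * Fr y))) := by
        intro y
        have e1 : ENNReal.ofReal (Real.exp (4 * s * Fr y)) =
            ENNReal.ofReal (Real.exp (4 * Fr y)) ^ s := by
          rw [ENNReal.ofReal_rpow_of_pos (Real.exp_pos _), ← Real.exp_mul]
          congr 2
          ring
        rw [e1, hd, ← ENNReal.mul_rpow_of_nonneg _ _ hs0.le, ← ENNReal.mul_rpow_of_nonneg _ _ hs0.le]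
        refine ENNReal.rpow_le_rpow ?_ hs0.le
        calc (b y : ℝ≥0∞) * (‖g (n + 1) y‖ₑ * ‖w - φ y‖ₑ⁻¹) ≤
            (b y : ℝ≥0∞) * ((a y * (M * (2⁻¹ : ℝ≥0∞) ^ n *
              ENNReal.ofReal (Real.exp (4 * Fr y)))) * ‖w - φ y‖ₑ⁻¹) := by
              gcongr
              exact hpt y
          _ = _ := by ring
      have hme : Measurable fun y => ENNReal.ofReal (Real.exp (4 * s * Fr y)) :=
        (Real.measurable_exp.comp (hFrm.const_mul (4 * s))).ennreal_ofReal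
      have h3 : ∫⁻ y in {y | τ y < τ x}, ((b y : ℝ≥0∞) * (‖g (n + 1) y‖ₑ * ‖w - φ y‖ₑ⁻¹)) ^ s ∂μ ≤
          (M * (2⁻¹ : ℝ≥0∞) ^ n) ^ s *
            ENNReal.ofReal ((4 * s)⁻¹ * Real.exp (4 * s * Fr x)) := by
        have hset : MeasurableSet {y | τ y < τ x} := hV.mτ measurableSet_Iio
        calc ∫⁻ y in {y | τ y < τ x}, ((b y : ℝ≥0∞) * (‖g (n + 1) y‖ₑ * ‖w - φ y‖ₑ⁻¹)) ^ s ∂μ
            ≤ ∫⁻ y in {y | τ y < τ x}, (M * (2⁻¹ : ℝ≥0∞) ^ n) ^ s *
            (d y * ENNReal.ofReal (Real.exp (4 * s * Fr y))) ∂μ := lintegral_mono hpt2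
          _ = (M * (2⁻¹ : ℝ≥0∞) ^ n) ^ s * ∫⁻ y in {y | τ y < τ x},
            (d y * ENNReal.ofReal (Real.exp (4 * s * Fr y))) ∂μ :=
              lintegral_const_mul _ (hdm.mul hme)
          _ = (M * (2⁻¹ : ℝ≥0∞) ^ n) ^ s * ∫⁻ y in {y | τ y < τ x},
            ENNReal.ofReal (Real.exp (4 * s * Fr y)) ∂ν := by
              congr 1
              rw [hν, restrict_withDensity hset,
                lintegral_withDensity_eq_lintegral_mul _ hdm hme]
              rfl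
          _ ≤ _ := by
              gcongr
              exact hWGT S ν τ hV.mτ (4 * s) (by positivity) (τ x)
      refine (ENNReal.rpow_le_rpow h3 (by positivity : 0 ≤ 1 / s)).trans ?_
      rw [ENNReal.mul_rpow_of_nonneg _ _ (by positivity : 0 ≤ 1 / s), ← ENNReal.rpow_mul,
        mul_one_div_cancel hs0.ne', ENNReal.rpow_one]
      -- the numerical inequality
      have e2 : ENNReal.ofReal ((4 * s)⁻¹ * Real.exp (4 * s * Fr x)) ≤
          (2⁻¹ * ENNReal.ofReal (Real.exp (4 * Fr x))) ^ s := by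
        have e3 : (2⁻¹ : ℝ≥0∞) = ENNReal.ofReal (1 / 2) := by
          rw [one_div, ENNReal.ofReal_inv_of_pos (by norm_num)]
          simp
        rw [e3, ← ENNReal.ofReal_mul (by norm_num),
          ENNReal.ofReal_rpow_of_pos (by positivity)]
        refine ENNReal.ofReal_le_ofReal ?_
        rw [Real.mul_rpow (by norm_num) (Real.exp_pos _).le, ← Real.exp_mul]
        have e4 : 4 * Fr x * s = 4 * s * Fr x := by ring
        rw [e4]
        exact mul_le_mul_of_nonneg_right (const_le hV.s1 hV.s2) (Real.exp_pos _).le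
      have e5 : ENNReal.ofReal ((4 * s)⁻¹ * Real.exp (4 * s * Fr x)) ^ (1 / s) ≤
          2⁻¹ * ENNReal.ofReal (Real.exp (4 * Fr x)) := by
        calc _ ≤ ((2⁻¹ * ENNReal.ofReal (Real.exp (4 * Fr x))) ^ s) ^ (1 / s) :=
              ENNReal.rpow_le_rpow e2 (by positivity)
          _ = _ := by
              rw [← ENNReal.rpow_mul, mul_one_div_cancel hs0.ne', ENNReal.rpow_one]
      calc M * (2⁻¹ : ℝ≥0∞) ^ n * ENNReal.ofReal ((4 * s)⁻¹ * Real.exp (4 * s * Fr x)) ^ (1 / s)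
          ≤ M * (2⁻¹ : ℝ≥0∞) ^ n * (2⁻¹ * ENNReal.ofReal (Real.exp (4 * Fr x))) := by gcongr
        _ = _ := by rw [pow_succ]; ring
  refine (key n x).trans ?_
  gcongr
  rw [hFr]
  refine ENNReal.toReal_mono hN ?_
  rw [← hνu]
  exact measure_mono (subset_univ _)

end Pool.Agent.K1H27.VM
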